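import Pool.Agent.AG.Pair.Inst
import Pool.Agent.AG.Red.Main
import Pool.Agent.AG.Cuts

/-!
# Project AG, block 5: the pair rule (PR), adjacent blades (ADJ), each triangle is a blade triangle
at most once (ONE)

* `adj_rule`: two blades at adjacent corners of one fan: `VirtB` on the counterclockwise side,
  `VirtA` on the clockwise side (both are virtual and share the side `v y`).
* `pair_rule`: stubs of two different blades at one visit form a 2-cut.
* `blade_one`: one triangle has at most one blade corner.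
-/

set_option linter.unusedSectionVars false
set_option linter.unusedSimpArgs false

namespace AG

open Finset

variable {I : Type} [DecidableEq I]

namespace Obj

section

variable {S : Obj I} {pt : Sd I → Pt} {R : Set Pt}

theorem Stub.bladeAt {w d : Sd I} (h : S.Stub pt w d) : S.BladeAt pt w := by
  rcases h with h | h | h
  · exact Or.inl h.1
  · exact Or.inr (Or.inl h.1)
  · exact Or.inr (Or.inr h.1)

/-- every blade has a stub -/
theorem BladeAt.exists_stub {w : Sd I} (h : S.BladeAt pt w) : ∃ d, S.Stub pt w d := by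
  rcases h with h | h | h
  · exact ⟨w, Or.inl ⟨h, Or.inl rfl⟩⟩
  · exact ⟨w, Or.inr (Or.inl ⟨h, rfl⟩)⟩
  · exact ⟨unrot w, Or.inr (Or.inr ⟨h, rfl⟩)⟩

theorem VirtA.not_virtB {w : Sd I} (h : S.VirtA pt w) : ¬ S.VirtB pt w := by
  intro h'
  exact h'.1.1 h.1.2.2.1

theorem Virt.not_blade {w : Sd I} (h : S.Virt pt w) : ¬ S.Blade w := fun h' => h'.not_face h.face

/-- the abstract blade of a blade with a given stub -/
theorem Stub.exists_bld (hS : Cex S pt R) {w d : Sd I} (h : S.Stub pt w d) :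
    ∃ rm G y, S.Bld pt R w rm d G y ∧ G.card ≤ 2 ∧
      ∀ t ∈ rm, t = w.1 ∨ (S.Virt pt w ∧ t = (S.g (rot w)).1) := by
  rcases h with ⟨h, h1 | h1⟩ | ⟨h, h1⟩ | ⟨h, h1⟩
  · obtain ⟨y, hy⟩ := bld_real hS h (σ := d) (τ := unrot w) (Or.inl ⟨h1, rfl⟩)
    refine ⟨_, _, y, hy, by rw [card_singleton]; omega, fun t ht => ?_⟩
    exact Or.inl (mem_singleton.1 ht)
  · obtain ⟨y, hy⟩ := bld_real hS h (σ := d) (τ := w) (Or.inr ⟨h1, rfl⟩)
    refine ⟨_, _, y, hy, by rw [card_singleton]; omega, fun t ht => ?_⟩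
    exact Or.inl (mem_singleton.1 ht)
  · obtain ⟨y, hy⟩ := bld_virtA hS h
    refine ⟨{w.1, (S.g (rot w)).1}, {unrot w, unrot (S.g (rot w))}, y, by rw [h1]; exact hy,
      card_le_two, fun t ht => ?_⟩
    rw [mem_insert, mem_singleton] at ht
    exact ht.imp id fun h2 => ⟨Or.inl h, h2⟩
  · obtain ⟨y, hy⟩ := bld_virtB hS h
    refine ⟨{w.1, (S.g (rot w)).1}, {w, rot (S.g (rot w))}, y, by rw [h1]; exact hy,
      card_le_two, fun t ht => ?_⟩
    rw [mem_insert, mem_singleton] at ht
    exact ht.imp id fun h2 => ⟨Or.inr h, h2⟩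

/-- two real blades at one visit are not adjacent -/
theorem not_step_real (hS : Cex S pt R) {a b : Sd I} (ha : S.Blade a) (hb : S.Blade b) :
    ¬ S.Step a b := by
  intro hst
  have hG : AG.Geo S pt := hS.geo
  have haF : a.1 ∈ S.F := S.memF a ha.1
  have he : S.Eqv a b := Relation.EqvGen.rel _ _ hst
  have hgab : S.g a = unrot b := by rw [hst.2, unrot_rot]
  have hne : b.1 ≠ a.1 := by
    intro h
    exact S.ne a ha.1 (by rw [hgab, unrot_fst, h])
  obtain ⟨y₁, b₁⟩ := bld_real hS ha (σ := a) (τ := unrot a) (Or.inl ⟨rfl, rfl⟩)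
  obtain ⟨y₂, b₂⟩ := bld_real hS hb (σ := b) (τ := unrot b) (Or.inl ⟨rfl, rfl⟩)
  have h1 := adj_step hS hS.bridgeless (Geo.linear hS.geo) b₁ b₂ hst
    (disjoint_singleton.2 hne.symm) (fun c hc hc2 => ?_) (by rw [card_singleton]; omega)
    (by rw [card_singleton]; omega)
  · exact unrot_ne a h1.1.symm
  · rw [mem_bd, mem_singleton] at hc
    rw [mem_singleton] at hc2
    obtain ⟨h2, h3, _⟩ := hc
    rcases eq_of_fst_eq h3 with h4 | h4 | h4
    · exact h4
    · rw [h4] at h2; exact absurd ha.2.2.1 h2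
    · exfalso
      rw [h4] at h2 hc2
      -- the other side of `a.1` leads to `b.1` too
      have e1 := hG.mat _ h2
      have e2 := hG.mat' h2
      rw [rot_unrot] at e2
      have e3 := hG.pt_eqv he
      rcases eq_of_fst_eq hc2 with h5 | h5 | h5
      · rw [h5] at e1
        -- `rot b` lies at the point of `unrot a`, `rot a` lies at the point of `unrot b`
        have e4 : AG.Geo S pt := hG
        have e5 := hG.mat' ha.1
        rw [hgab] at e5
        -- both sides `g a = unrot b`, `g (unrot a) = b`: a real blade `b` with the same neighbours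
        have e6 := hG.apex_ne ha.1
        rw [hgab, unrot_unrot] at e6
        exact e6 e1.symm
      · rw [h5] at e2
        exact hG.pt_ne_rot (S.memF b hb.1) (by rw [e2, e3])
      · have h6 : S.g (unrot a) = S.g a := by rw [h5, hgab]
        exact unrot_ne a (S.g_injective h6)

/-- the glued sides between the triangles of two blades at one visit -/
theorem pair_facts (hS : Cex S pt R) {w₁ w₂ : Sd I} (h₁ : S.BladeAt pt w₁)
    (h₂ : S.BladeAt pt w₂) (he : S.Eqv w₁ w₂) (hne : w₁ ≠ w₂) {rm₁ rm₂ : Finset I}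
    (hr₁ : ∀ t ∈ rm₁, t = w₁.1 ∨ (S.Virt pt w₁ ∧ t = (S.g (rot w₁)).1))
    (hr₂ : ∀ t ∈ rm₂, t = w₂.1 ∨ (S.Virt pt w₂ ∧ t = (S.g (rot w₂)).1)) :
    Disjoint rm₁ rm₂ ∧ ∀ a ∈ S.bd rm₁, (S.g a).1 ∈ rm₂ →
      (a = w₁ ∧ S.Step w₁ w₂) ∨ (a = unrot w₁ ∧ S.Step w₂ w₁) := by
  have hG : AG.Geo S pt := hS.geo
  have hpt := hG.pt_eqv he
  have hF₁ := BladeAt.memF h₁
  have hF₂ := BladeAt.memF h₂
  have hww : w₁.1 ≠ w₂.1 := hG.blade_fst_ne hF₁ hne hpt
  constructor
  · rw [disjoint_left]
    intro t ht1 ht2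
    rcases hr₁ t ht1 with h3 | ⟨v₁, h3⟩ <;> rcases hr₂ t ht2 with h4 | ⟨v₂, h4⟩
    · exact hww (h3.symm.trans h4)
    · exact hG.coin1' v₂.glued hpt.symm (h4.symm.trans h3)
    · exact hG.coin1' v₁.glued hpt (h3.symm.trans h4)
    · exact hG.coin1 v₁.glued v₂.glued hne hpt (h3.symm.trans h4)
  · intro a ha hga
    rw [mem_bd] at ha
    obtain ⟨ha1, ha2, ha3⟩ := ha
    rcases hr₁ _ ha2 with h3 | ⟨v₁, h3⟩ <;> rcases hr₂ _ hga with h4 | ⟨v₂, h4⟩
    · -- both blade triangles
      have e1 := hG.mat a ha1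
      have e2 := hG.mat' ha1
      -- the opposite side of `w₂.1` does not lead to `w₁.1`
      have hop : S.g a ≠ rot w₂ := by
        intro h5
        have h6 : S.g (rot w₂) = a := by rw [← h5, S.invol]
        rcases h₂ with h₂ | h₂
        · have := h₂.2.2.1
          rw [h6, ← h5] at this
          exact ha1 this.symm
        · exact hG.coin1' (w₁ := w₂) (w₂ := w₁) (Virt.glued (show S.Virt pt w₂ from h₂))
            hpt.symm (by rw [h6, h3])
      rcases eq_of_fst_eq h3 with h5 | h5 | h5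
      · left
        refine ⟨h5, ?_⟩
        rw [h5] at e1 e2 ha1 hop h4
        refine ⟨ha1, ?_⟩
        rcases eq_of_fst_eq h4 with h6 | h6 | h6
        · exfalso
          rw [h6] at e2
          exact hG.pt_ne_rot hF₁ (by rw [← e2, hpt])
        · exact absurd h6 hop
        · rw [h6, rot_unrot]
      · exfalso
        rw [h5] at ha1 h4
        rcases h₁ with h₁ | h₁
        · exact ha1 h₁.2.2.1
        · exact hG.coin1' (w₁ := w₁) (w₂ := w₂) ha1 hpt h4
      · right
        refine ⟨h5, ?_⟩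
        rw [h5] at e1 e2 ha1 hop h4
        rcases eq_of_fst_eq h4 with h6 | h6 | h6
        · refine ⟨?_, ?_⟩
          · rw [← h6, S.invol]; exact ha1.symm
          · rw [← h6, S.invol, rot_unrot]
        · exact absurd h6 hop
        · exfalso
          rw [h6, rot_unrot] at e1
          exact hG.pt_ne_unrot hF₁ (by rw [← e1, hpt])
    · exact absurd h4 (hG.coin2' (w₁ := w₂) (w₂ := w₁) v₂.glued hne.symm hpt.symm h3 ha1)
    · exact absurd h4 (hG.coin2 v₁.glued hne hpt h3 ha1)
    · exfalso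
      rcases hG.coin3 v₁ v₂ hpt h3 ha1 h4 with ⟨hA, hB, hst⟩ | ⟨hB, hA, hst⟩
      · exact not_step_real hS hB.1 hA.1 hst
      · exact not_step_real hS hB.1 hA.1 hst

theorem not_step_symm (hS : Cex S pt R) {a b : Sd I} (h : S.Step a b) : ¬ S.Step b a := by
  intro h'
  have hL : S.Linear := Geo.linear hS.geo
  have h1 : S.cw a = b := by rw [cw_of_glued h.1, h.2]
  have h2 : S.cw b = a := by rw [cw_of_glued h'.1, h'.2]
  have h3 := hL.glued_of_iter h.1 (m := 2) (by norm_num)
  apply h3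
  rw [Function.iterate_succ_apply, h1, Function.iterate_one, h2]

/-- ADJ: blades at adjacent corners of one fan -/
theorem adj_rule (hS : Cex S pt R) {w₁ w₂ : Sd I} (h₁ : S.BladeAt pt w₁)
    (h₂ : S.BladeAt pt w₂) (hst : S.Step w₁ w₂) : S.VirtB pt w₁ ∧ S.VirtA pt w₂ := by
  have hG : AG.Geo S pt := hS.geo
  have hL : S.Linear := Geo.linear hS.geo
  have he : S.Eqv w₁ w₂ := Relation.EqvGen.rel _ _ hst
  have hne : w₁ ≠ w₂ := by
    rintro rfl
    exact not_step_symm hS hst hst
  have key : ∀ d₁ d₂, S.Stub pt w₁ d₁ → S.Stub pt w₂ d₂ → d₁ = unrot w₁ ∧ d₂ = w₂ := by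
    intro d₁ d₂ hd₁ hd₂
    obtain ⟨rm₁, G₁, y₁, b₁, hc₁, hr₁⟩ := hd₁.exists_bld hS
    obtain ⟨rm₂, G₂, y₂, b₂, hc₂, hr₂⟩ := hd₂.exists_bld hS
    obtain ⟨hd, hu⟩ := pair_facts hS h₁ h₂ he hne hr₁ hr₂
    have := adj_step hS hS.bridgeless hL b₁ b₂ hst hd (fun a ha hga => ?_) hc₁ hc₂
    · exact ⟨this.1, this.2.1⟩
    · rcases hu a ha hga with h3 | h3
      · exact h3.1
      · exact absurd h3.2 (not_step_symm hS hst)
  obtain ⟨d₁, hd₁⟩ := BladeAt.exists_stub h₁
  obtain ⟨d₂, hd₂⟩ := BladeAt.exists_stub h₂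
  constructor
  · rcases h₁ with h | h | h
    · exact absurd (key w₁ d₂ (Or.inl ⟨h, Or.inl rfl⟩) hd₂).1 (unrot_ne w₁).symm
    · exact absurd (key w₁ d₂ (Or.inr (Or.inl ⟨h, rfl⟩)) hd₂).1 (unrot_ne w₁).symm
    · exact h
  · rcases h₂ with h | h | h
    · exact absurd (key d₁ (unrot w₂) hd₁ (Or.inl ⟨h, Or.inr rfl⟩)).2 (unrot_ne w₂)
    · exact h
    · exact absurd (key d₁ (unrot w₂) hd₁ (Or.inr (Or.inr ⟨h, rfl⟩))).2 (unrot_ne w₂)

/-- PR: the pair rule -/
theorem pair_rule (hS : Cex S pt R) {w₁ w₂ d₁ d₂ : Sd I} (hd₁ : S.Stub pt w₁ d₁)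
    (hd₂ : S.Stub pt w₂ d₂) (he : S.Eqv w₁ w₂) (hne : w₁ ≠ w₂) :
    ∃ T ⊆ S.F, ∃ e₁ e₂, (e₁ = d₁ ∨ e₁ = S.g d₁) ∧ (e₂ = d₂ ∨ e₂ = S.g d₂) ∧
      S.bd T = {e₁, e₂} ∧ e₁ ≠ e₂ := by
  have hL : S.Linear := Geo.linear hS.geo
  have h₁ := hd₁.bladeAt
  have h₂ := hd₂.bladeAt
  obtain ⟨rm₁, G₁, y₁, b₁, hc₁, hr₁⟩ := hd₁.exists_bld hS
  obtain ⟨rm₂, G₂, y₂, b₂, hc₂, hr₂⟩ := hd₂.exists_bld hS
  obtain ⟨hd, hu⟩ := pair_facts hS h₁ h₂ he hne hr₁ hr₂
  obtain ⟨hd', hu'⟩ := pair_facts hS h₂ h₁ he.symm hne.symm hr₂ hr₁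
  by_cases hst : S.Step w₁ w₂
  · refine (adj_step hS hS.bridgeless hL b₁ b₂ hst hd (fun a ha hga => ?_) hc₁ hc₂).2.2
    rcases hu a ha hga with h3 | h3
    · exact h3.1
    · exact absurd h3.2 (not_step_symm hS hst)
  · by_cases hst' : S.Step w₂ w₁
    · obtain ⟨T, hT, e₁, e₂, h3, h4, h5, h6⟩ :=
        (adj_step hS hS.bridgeless hL b₂ b₁ hst' hd' (fun a ha hga => by
          rcases hu' a ha hga with h3 | h3
          · exact h3.1
          · exact absurd h3.2 hst) hc₂ hc₁).2.2
      exact ⟨T, hT, e₂, e₁, h4, h3, by rw [h5, pair_comm], h6.symm⟩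
    · refine cut_nonadj hS hS.bridgeless hL b₁ b₂ he hne hd fun a ha hga => ?_
      rcases hu a ha hga with h3 | h3
      · exact hst h3.2
      · exact hst' h3.2

/-- PR, second form: the boundary edges of `T` are the stubs `d₁` and `d₂`, which are different -/
theorem pair_rule' (hS : Cex S pt R) {w₁ w₂ d₁ d₂ : Sd I} (hd₁ : S.Stub pt w₁ d₁)
    (hd₂ : S.Stub pt w₂ d₂) (he : S.Eqv w₁ w₂) (hne : w₁ ≠ w₂) :
    d₁ ≠ d₂ ∧ d₁ ≠ S.g d₂ ∧ ∃ T ⊆ S.F, ∀ a, (a ∈ S.bd T ∨ S.g a ∈ S.bd T) ↔
      (a = d₁ ∨ a = S.g d₁ ∨ a = d₂ ∨ a = S.g d₂) := by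
  obtain ⟨T, hT, e₁, e₂, h1, h2, h3, h4⟩ := pair_rule hS hd₁ hd₂ he hne
  have m1 : e₁ ∈ S.bd T := by rw [h3]; simp
  have m2 : e₂ ∈ S.bd T := by rw [h3]; simp
  have n1 := bd_asymm m1
  have hdis : e₁ ≠ S.g e₂ := by
    intro h5
    have := bd_asymm m2
    rw [← h5] at this
    exact this m1
  refine ⟨?_, ?_, T, hT, fun a => ?_⟩
  · intro h5
    subst h5
    rcases h1 with h1 | h1 <;> rcases h2 with h2 | h2
    · exact h4 (h1.trans h2.symm)
    · exact hdis (by rw [h1, h2, S.invol])
    · exact hdis (by rw [h1, h2])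
    · exact h4 (h1.trans h2.symm)
  · intro h5
    rcases h1 with h1 | h1 <;> rcases h2 with h2 | h2
    · exact hdis (by rw [h1, h2, h5])
    · exact h4 (by rw [h1, h2, h5])
    · exact h4 (by rw [h1, h2, h5, S.invol])
    · exact hdis (by rw [h1, h2, h5])
  · rw [h3, mem_insert, mem_singleton, mem_insert, mem_singleton]
    have inv : ∀ x z : Sd I, S.g x = z ↔ x = S.g z := fun x z =>
      ⟨fun h => by rw [← h, S.invol], fun h => by rw [h, S.invol]⟩
    rw [inv a e₁, inv a e₂]
    rcases h1 with h1 | h1 <;> rcases h2 with h2 | h2 <;> rw [h1, h2] <;>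
      (try simp only [S.invol]) <;> tauto

/-- ONE: a triangle is the blade triangle of at most one blade -/
theorem blade_one (hS : Cex S pt R) {w w' : Sd I} (h : S.BladeAt pt w) (h' : S.BladeAt pt w')
    (hw : w.1 = w'.1) : w = w' := by
  -- type A at `w` excludes every other virtual blade at a corner of the same triangle
  have keyA : ∀ {w w' : Sd I}, S.VirtA pt w → S.Virt pt w' → w.1 = w'.1 → w' = w := by
    intro w w' hA hv hww
    have hf := hA.face
    have hgl := hA.glued
    rcases eq_of_fst_eq hww.symm with e | e | e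
    · exact e
    · -- `w' = rot w`: the other blade triangle is across the side `unrot w`
      exfalso
      have er : rot w' = unrot w := by rw [e, rot_rot]
      have hgl' := hv.glued
      rw [er] at hgl'
      rcases hv with hv | hv
      · -- apex at the visit of `w`
        have hb : S.Blade (S.g (unrot w)) := by
          have := hv.1; rwa [er] at this
        have hst : S.Step (S.g (unrot w)) w :=
          ⟨g_ne_iff.2 hgl', by rw [S.invol, rot_unrot]⟩
        have := (adj_rule hS (Or.inl hb) (Or.inr (Or.inl hA)) hst).1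
        exact Virt.not_blade (Or.inr this) hb
      · -- apex at the visit of `unrot w`
        have hb : S.Blade (rot (S.g (unrot w))) := by
          have := hv.1; rwa [er] at this
        have ha : S.Blade (S.g (rot w)) := hA.1
        have e1 : S.Eqv (S.g (rot w)) (unrot w) := by
          have := Eqv.of_glued' hgl
          rw [rot_rot] at this
          exact this.symm
        have e2 : S.Eqv (unrot w) (rot (S.g (unrot w))) := Eqv.of_glued hgl'
        have hne : S.g (rot w) ≠ rot (S.g (unrot w)) := by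
          intro h3
          have h4 : (S.g (rot w)).1 = (S.g (unrot w)).1 := by rw [h3, rot_fst]
          have hG : AG.Geo S pt := hS.geo
          refine hG.pt_ne_of_across hgl (d := S.g (unrot w)) h4.symm ?_
          rw [hG.mat' hgl', rot_unrot]
        obtain ⟨T, hT, x₁, x₂, h5, h6, h7, h8⟩ := pair_rule hS
          (d₁ := S.g (rot w)) (d₂ := S.g (unrot w)) (Or.inl ⟨ha, Or.inl rfl⟩)
          (Or.inl ⟨hb, Or.inr (by rw [unrot_rot])⟩) (e1.trans e2) hne
        rw [S.invol] at h5 h6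
        have hru : (rot w) ≠ unrot w := rot_ne_unrot w
        have hfc := hS.bridgeless.face_cut hT (a := rot w) (b := unrot w) hf rfl hru
        have m1 : x₁ ∈ S.bd T := by rw [h7]; simp
        have m2 : x₂ ∈ S.bd T := by rw [h7]; simp
        rcases h5 with h5 | h5 <;> rcases h6 with h6 | h6
        · exact hfc.2 (by rw [h7, h5, h6])
        · rw [h5] at m1; rw [h6] at m2
          exact (mem_bd.1 m1).2.2 (by rw [S.invol]; exact (mem_bd.1 m2).2.1)
        · rw [h5] at m1; rw [h6] at m2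
          exact (mem_bd.1 m2).2.2 (by rw [S.invol]; exact (mem_bd.1 m1).2.1)
        · exact hfc.1 (by rw [h7, h5, h6])
    · -- `w' = unrot w`: the other blade triangle is across the side `w`
      exfalso
      have er : rot w' = w := by rw [e, rot_unrot]
      have hgl' := hv.glued
      rw [er] at hgl'
      rcases hv with hv | hv
      · -- virtual at `unrot w`, adjacent to the real blade `g (rot w)`
        have hst : S.Step (S.g (rot w)) w' :=
          ⟨g_ne_iff.2 hgl, by rw [S.invol, rot_rot, e]⟩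
        have := (adj_rule hS (Or.inl hA.1) (Or.inr (Or.inl hv)) hst).1
        exact Virt.not_blade (Or.inr this) hA.1
      · have hb : S.Blade (rot (S.g w)) := by
          have := hv.1; rwa [er] at this
        have hst : S.Step w (rot (S.g w)) := ⟨hgl', rfl⟩
        have := (adj_rule hS (Or.inr (Or.inl hA)) (Or.inl hb) hst).2
        exact Virt.not_blade (Or.inl this) hb
  -- two blades of type B
  have keyB : ∀ {w : Sd I}, S.VirtB pt w → S.VirtB pt (rot w) → False := by
    intro w hB hB'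
    have hst : S.Step (rot w) (rot (S.g (rot w))) := ⟨hB.glued, rfl⟩
    have := (adj_rule hS (Or.inr (Or.inr hB')) (Or.inl hB.1) hst).2
    exact Virt.not_blade (Or.inl this) hB.1
  rcases h with h | h
  · rcases h' with h' | h'
    · rcases eq_of_fst_eq hw.symm with e | e | e
      · exact e.symm
      · exfalso
        rw [e] at h'
        exact h'.1 h.2.2.1
      · exfalso
        rw [e] at h'
        have := h'.2.1
        rw [unrot_unrot] at this
        exact this h.2.2.1
    · exact absurd (hw ▸ (Virt.face (show S.Virt pt w' from h'))) h.not_face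
  · rcases h' with h' | h'
    · exact absurd (hw ▸ (Virt.face (show S.Virt pt w from h))) h'.not_face
    · rcases h with hA | hB
      · exact (keyA hA h' hw).symm
      · rcases h' with hA' | hB'
        · exact keyA hA' (Or.inr hB) hw.symm
        · rcases eq_of_fst_eq hw.symm with e | e | e
          · exact e.symm
          · rw [e] at hB'; exact (keyB hB hB').elim
          · rw [e] at hB'
            exact (keyB hB' (by rw [rot_unrot]; exact hB)).elim

end

end Obj

end AG
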