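import Pool.Agent.AG.Pair.Good

/-!
# Project AG, block 5 (pair rule): abstract blades and the success criterion

`Bld S pt R c rm σ G y`: abstract (real or virtual) blade at the corner `c`; `rm` = the removed
triangles, `σ` = the stub side, `G` = the group of the other sides which leave `rm`; all sides of
`G` have an end at the visit of `y`, so that after the removal of `rm` the partners of the sides of
`G` are linked by the visit of `y`.
-/

set_option linter.unusedSectionVars false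
set_option linter.unusedSimpArgs false

namespace AG

open Finset

variable {I : Type} [DecidableEq I]

namespace Obj

/-- abstract blade at the corner `c` -/
structure Bld (S : Obj I) (pt : Sd I → Pt) (R : Set Pt) (c : Sd I) (rm : Finset I) (σ : Sd I)
    (G : Finset (Sd I)) (y : Sd I) : Prop where
  sub : rm ⊆ S.F
  mem : c.1 ∈ rm
  bd : S.bd rm = insert σ G
  nin : σ ∉ G
  vs : (σ = c ∧ unrot c ∈ G) ∨ (σ = unrot c ∧ c ∈ G)
  card : rm.card + (S.vis.filter (fun a => a.1 ∈ rm)).card = G.card + 1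
  ears : ∀ a ∈ S.E, a.1 ∉ rm
  only : ∀ a, a.1 ∈ rm → S.Eqv a c → a = c
  ny : ¬ S.Eqv y c
  link : ∀ a ∈ G, S.Eqv y a ∨ S.Eqv y (rot a)
  cov : ∀ C : Finset (Sd I), S.Hit C c →
    (∀ a ∈ G, (S.keep (S.F \ rm)).Noncore (S.g a).1 → ∃ i, S.Hit C ((S.g a).1, i)) →
    ∀ t ∈ rm, Cov pt R C t

section facts

variable {S : Obj I} {pt : Sd I → Pt} {R : Set Pt} {c : Sd I} {rm : Finset I} {σ : Sd I}
  {G : Finset (Sd I)} {y : Sd I}

theorem Bld.c_mem (b : S.Bld pt R c rm σ G y) : c ∈ S.bd rm := by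
  rw [b.bd]
  rcases b.vs with ⟨h, _⟩ | ⟨_, h⟩
  · rw [h]; exact mem_insert_self _ _
  · exact mem_insert_of_mem h

theorem Bld.uc_mem (b : S.Bld pt R c rm σ G y) : unrot c ∈ S.bd rm := by
  rw [b.bd]
  rcases b.vs with ⟨_, h⟩ | ⟨h, _⟩
  · exact mem_insert_of_mem h
  · rw [h]; exact mem_insert_self _ _

theorem Bld.σ_mem (b : S.Bld pt R c rm σ G y) : σ ∈ S.bd rm := by
  rw [b.bd]; exact mem_insert_self _ _

theorem Bld.G_mem (b : S.Bld pt R c rm σ G y) {a : Sd I} (ha : a ∈ G) : a ∈ S.bd rm := by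
  rw [b.bd]; exact mem_insert_of_mem ha

theorem Bld.G_ne (b : S.Bld pt R c rm σ G y) : G.Nonempty := by
  rcases b.vs with ⟨_, h⟩ | ⟨_, h⟩ <;> exact ⟨_, h⟩

theorem Bld.glued (b : S.Bld pt R c rm σ G y) : S.g c ≠ c := (mem_bd.1 b.c_mem).1

/-- the partner of a side of the group has a corner at the visit of `y` -/
theorem Bld.link' (b : S.Bld pt R c rm σ G y) {a : Sd I} (ha : a ∈ G) :
    ∃ p, p.1 = (S.g a).1 ∧ S.Eqv y p := by
  have hg := (mem_bd.1 (b.G_mem ha)).1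
  rcases b.link a ha with h | h
  · exact ⟨rot (S.g a), rfl, h.trans (Eqv.of_glued hg)⟩
  · exact ⟨S.g a, rfl, h.trans (Eqv.of_glued' hg)⟩

end facts

/-- no triangle of a connected bridgeless object with a glued side is noncore -/
theorem not_noncore {S : Obj I} (hc : S.Conn) (hb : S.Bridgeless) {a : Sd I} (ha : S.g a ≠ a)
    (t : I) : ¬ S.Noncore t := by
  rintro ⟨ht, h⟩
  have h1 : ({t} : Finset I) ≠ S.F := by
    intro h2
    have h3 := S.memF a ha
    have h4 := g_memF ha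
    rw [← h2, mem_singleton] at h3 h4
    exact S.ne a ha (h4.trans h3.symm)
  obtain ⟨b, hb1⟩ := hc.2 {t} (singleton_subset_iff.2 ht) (singleton_nonempty t) h1
  rw [mem_bd, mem_singleton] at hb1
  obtain ⟨h2, h3, _⟩ := hb1
  have h4 : b = (t, b.2) := Prod.ext h3 rfl
  rw [h4] at h2
  exact hb _ (h b.2 h2)

/-- removing the set `rm` of triangles -/
theorem N2_rmSet (S : Obj I) {rm : Finset I} (h : rm ⊆ S.F) (hE : ∀ a ∈ S.E, a.1 ∉ rm) (k : ℕ) :
    (S.keep (S.F \ rm)).N2 k + rm.card + (S.vis.filter (fun a => a.1 ∈ rm)).card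
      = S.N2 k + (S.bd rm).card := by
  have h2 := card_vis_keep S (sdiff_subset : S.F \ rm ⊆ S.F)
  rw [card_bd_sdiff S h] at h2
  have h3 : (S.vis.filter (fun a => a.1 ∈ rm)).card
      + (S.vis.filter (fun a => a.1 ∈ S.F \ rm)).card = S.vis.card := by
    rw [← Finset.card_filter_add_card_filter_not (s := S.vis) (fun a => a.1 ∈ rm)]
    congr 2
    refine filter_congr fun a ha => ?_
    simp [(mem_vis.1 ha).1]
  have h4 : S.E.filter (fun a => a.1 ∈ S.F \ rm) = S.E := by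
    refine filter_true_of_mem fun a ha => ?_
    exact mem_sdiff.2 ⟨S.earF a ha, hE a ha⟩
  have h5 : rm.card + (S.F \ rm).card = S.F.card := by
    rw [card_sdiff_of_subset h]; have := card_le_card h; omega
  simp only [N2, keep_F S sdiff_subset, keep_E, h4]
  omega

theorem card_bd_union (S : Obj I) {A B : Finset I} (h : Disjoint A B) :
    (S.bd (A ∪ B)).card + 2 * ((S.bd A).filter (fun a => (S.g a).1 ∈ B)).card
      = (S.bd A).card + (S.bd B).card := by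
  have hd : ∀ t, t ∈ A → t ∈ B → False := fun t h1 h2 => disjoint_left.1 h h1 h2
  have h1 : S.bd (A ∪ B) = (S.bd A).filter (fun a => ¬ (S.g a).1 ∈ B)
      ∪ (S.bd B).filter (fun a => ¬ (S.g a).1 ∈ A) := by
    ext a
    simp only [mem_bd, mem_union, mem_filter, not_or]
    tauto
  have h2 : Disjoint ((S.bd A).filter (fun a => ¬ (S.g a).1 ∈ B))
      ((S.bd B).filter (fun a => ¬ (S.g a).1 ∈ A)) := by
    rw [disjoint_left]
    intro a ha hb
    exact hd a.1 (mem_bd.1 (mem_filter.1 ha).1).2.1 (mem_bd.1 (mem_filter.1 hb).1).2.1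
  have h3 : ((S.bd B).filter (fun a => (S.g a).1 ∈ A)).card
      = ((S.bd A).filter (fun a => (S.g a).1 ∈ B)).card := by
    have : (S.bd B).filter (fun a => (S.g a).1 ∈ A)
        = ((S.bd A).filter (fun a => (S.g a).1 ∈ B)).image S.g := by
      ext a
      simp only [mem_filter, mem_image, mem_bd]
      constructor
      · rintro ⟨⟨h4, h5, h6⟩, h7⟩
        refine ⟨S.g a, ⟨⟨g_ne_iff.2 h4, h7, ?_⟩, ?_⟩, S.invol a⟩
        · rw [S.invol]; exact fun h8 => hd _ h8 h5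
        · rw [S.invol]; exact h5
      · rintro ⟨b, ⟨⟨h4, h5, h6⟩, h7⟩, rfl⟩
        rw [S.invol]
        exact ⟨⟨ne_comm.1 h4, h7, fun h8 => hd _ h5 h8⟩, h5⟩
    rw [this, card_image_of_injective _ S.g_injective]
  have h4 := Finset.card_filter_add_card_filter_not (s := S.bd A) (fun a => (S.g a).1 ∈ B)
  have h5 := Finset.card_filter_add_card_filter_not (s := S.bd B) (fun a => (S.g a).1 ∈ A)
  rw [h1, card_union_of_disjoint h2]
  omega

/-- shrinking a solution: every element keeps an equivalent one -/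
theorem _root_.AG.Sol.shrink {S : Obj I} {pt : Sd I → Pt} (hg : S.Geo pt) {R : Set Pt}
    {W C C' : Finset (Sd I)} (h : Sol S pt R W C) (hsub : C' ⊆ C)
    (hC : ∀ d ∈ C, ∃ d' ∈ C', S.Eqv d d') : Sol S pt R W C' := by
  have key : ∀ c, S.Hit C c → S.Hit C' c := by
    rintro c ⟨e, he1, he2⟩
    obtain ⟨d', hd', h1⟩ := hC e he1
    exact ⟨d', hd', h1.symm.trans he2⟩
  refine ⟨hsub.trans h.sub, fun w hw => key _ (h.forced w hw),
    fun a ha => (h.ear a ha).imp (key _) (key _), ?_, ?_⟩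
  · intro t ht
    obtain ⟨i, hi⟩ := h.dom t ht
    exact ⟨i, key _ hi⟩
  · intro t ht p hp
    obtain ⟨c, hc, h1⟩ := h.cov t ht p hp
    obtain ⟨d', hd', h2⟩ := hC c hc
    exact ⟨d', hd', by rw [← hg.pt_eq h2]; exact h1⟩

/-- the relation for the link lemma: at the visit of `c` the equivalence in `keep X`, elsewhere the
equivalence in `S` -/
def vrel (S : Obj I) (X : Finset I) (c a b : Sd I) : Prop :=
  (S.keep X).Eqv a b ∨ (S.Eqv a b ∧ ¬ S.Eqv a c)

theorem vrel_eqv {S : Obj I} {X : Finset I} {c a b : Sd I} (h : S.vrel X c a b) : S.Eqv a b := by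
  rcases h with h | h
  · exact h.mono (keep_le S X)
  · exact h.1

theorem vrel_equivalence (S : Obj I) (X : Finset I) (c : Sd I) :
    Equivalence (S.vrel X c) where
  refl a := Or.inl (Eqv.refl _ _)
  symm := by
    rintro a b (h | ⟨h1, h2⟩)
    · exact Or.inl h.symm
    · exact Or.inr ⟨h1.symm, fun h3 => h2 (h1.trans h3)⟩
  trans := by
    rintro a b d h h'
    by_cases hc : S.Eqv a c
    · have hb : S.Eqv b c := (vrel_eqv h).symm.trans hc
      rcases h with h | h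
      · rcases h' with h' | h'
        · exact Or.inl (h.trans h')
        · exact absurd hb h'.2
      · exact absurd hc h.2
    · exact Or.inr ⟨(vrel_eqv h).trans (vrel_eqv h'), hc⟩

theorem vrel_of_at {S : Obj I} {X : Finset I} {c a b : Sd I} (h : S.vrel X c a b)
    (ha : S.Eqv a c) : (S.keep X).Eqv a b := by
  rcases h with h | h
  · exact h
  · exact absurd ha h.2

/-- parts of a minimal counterexample which miss a glued side satisfy P -/
theorem Cex.part {S : Obj I} {pt : Sd I → Pt} {R : Set Pt} (hS : Cex S pt R) {Z : Finset I}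
    (hZ : Z ⊆ S.F) {a : Sd I} (ha : S.g a ≠ a) (haZ : a.1 ∉ Z) (hc : (S.keep Z).Conn)
    {W : Finset (Sd I)} (hW : W ⊆ (S.keep Z).sides) : P (S.keep Z) pt R W := by
  refine hS.ih (S.keep Z) pt (hS.geo.sub (keep_le S Z)) hc ?_ ?_ W hW
  · intro t ht
    exact hS.sub t ((keep_le S Z).F ht)
  · refine card_lt_card ⟨?_, fun h => ?_⟩
    · intro b hb
      rw [mem_glued] at hb ⊢
      exact ((keep_le S Z).glued hb).2
    · have h1 := h (mem_glued.2 ha)
      rw [mem_glued] at h1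
      have h2 := (S.keep Z).memF a h1
      rw [keep_F S hZ] at h2
      exact haZ h2

/-- SUCCESS CRITERION: in a minimal counterexample the part `F \ (rm₁ ∪ rm₂)` is not linked -/
theorem not_linked {S : Obj I} {pt : Sd I → Pt} {R : Set Pt} (hS : Cex S pt R)
    (hB : S.Bridgeless) {c₁ c₂ σ₁ σ₂ y₁ y₂ : Sd I} {rm₁ rm₂ : Finset I}
    {G₁ G₂ : Finset (Sd I)} (b₁ : S.Bld pt R c₁ rm₁ σ₁ G₁ y₁) (b₂ : S.Bld pt R c₂ rm₂ σ₂ G₂ y₂)
    (he : S.Eqv c₁ c₂)
    (ha₁ : ∀ a ∈ G₁, (S.g a).1 ∈ rm₂ → (S.g a).1 = c₂.1)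
    (ha₂ : ∀ a ∈ G₂, (S.g a).1 ∈ rm₁ → (S.g a).1 = c₁.1)
    {W : Finset (Sd I)} (hWX : ∀ w ∈ W, w.1 ∈ S.F \ (rm₁ ∪ rm₂)) (hWc : ∀ w ∈ W, S.Eqv w c₁)
    (hWp : ∀ w ∈ W, ∀ w' ∈ W, (S.keep (S.F \ (rm₁ ∪ rm₂))).Eqv w w' → w = w')
    (hWne : W.Nonempty)
    (hN : (S.keep (S.F \ (rm₁ ∪ rm₂))).N2 0 + 6 ≤ S.N2 0 + 2 * W.card) :
    ∃ Y ⊆ S.F \ (rm₁ ∪ rm₂), Y.Nonempty ∧ Y ≠ S.F \ (rm₁ ∪ rm₂) ∧
      S.Closed (S.F \ (rm₁ ∪ rm₂)) Y ∧
      ∀ p q, S.Eqv p q → ¬ S.Eqv p c₁ → p.1 ∈ Y → q.1 ∈ S.F \ (rm₁ ∪ rm₂) → q.1 ∈ Y := by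
  classical
  set X : Finset I := S.F \ (rm₁ ∪ rm₂) with hXdef
  have hX : X ⊆ S.F := sdiff_subset
  by_contra hcon
  have hlink : ∀ Y ⊆ X, Y.Nonempty → Y ≠ X → S.Closed X Y →
      ∃ p q, S.vrel X c₁ p q ∧ p.1 ∈ Y ∧ q.1 ∈ X \ Y := by
    intro Y hY hYne hYX hYc
    by_contra hno
    refine hcon ⟨Y, hY, hYne, hYX, hYc, fun p q hpq hpc hp hq => ?_⟩
    by_contra hqY
    exact hno ⟨p, q, Or.inr ⟨hpq, hpc⟩, hp, mem_sdiff.2 ⟨hq, hqY⟩⟩
  have hXne : X.Nonempty := by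
    obtain ⟨w, hw⟩ := hWne
    exact ⟨_, hWX w hw⟩
  have hc₁X : ∀ Z ⊆ X, c₁.1 ∉ Z := fun Z hZ h =>
    (mem_sdiff.1 (hZ h)).2 (mem_union_left _ b₁.mem)
  obtain ⟨C, hC, hn⟩ := good_of_linked (vrel_equivalence S X c₁)
    (fun a b h => hS.geo.pt_eq (vrel_eqv h)) hX hXne (fun a b h => Or.inl h)
    (fun Z hZ hc W hW => hS.part (hZ.trans hX) b₁.glued (hc₁X Z hZ) hc hW) hlink hWX
  -- the elements of `C` at the visit of `c₁`
  have hcardW : W.card ≤ (C.filter fun d => S.Eqv d c₁).card := by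
    choose! f hf1 hf2 using hC.forced
    refine card_le_card_of_injOn f ?_ ?_
    · intro w hw
      rw [mem_coe, mem_filter]
      exact ⟨hf1 w hw, (vrel_eqv (hf2 w hw)).trans (hWc w hw)⟩
    · intro w hw w' hw' hww
      have h1 := vrel_of_at (hf2 w hw) ((vrel_eqv (hf2 w hw)).trans (hWc w hw))
      have h2 := vrel_of_at (hf2 w' hw') ((vrel_eqv (hf2 w' hw')).trans (hWc w' hw'))
      rw [hww] at h1
      exact hWp w hw w' hw' (h1.symm.trans h2)
  obtain ⟨w₀, hw₀⟩ := hWne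
  obtain ⟨d₀, hd₀, hd₀w⟩ := hC.forced w₀ hw₀
  have hd₀c : S.Eqv d₀ c₁ := (vrel_eqv hd₀w).trans (hWc w₀ hw₀)
  have hit₁ : S.Hit C c₁ := ⟨d₀, hd₀, hd₀c⟩
  have hit₂ : S.Hit C c₂ := hit₁.eqv he
  have hitN : ∀ t, t ∈ X → (S.keep X).Noncore t → ∃ i, S.Hit C (t, i) := by
    intro t ht hnc
    obtain ⟨i, d, hd, h1⟩ := hC.dom t ht hnc
    exact ⟨i, d, hd, vrel_eqv h1⟩
  have hXsub₁ : X ⊆ S.F \ rm₁ := sdiff_subset_sdiff subset_rfl subset_union_left
  have hXsub₂ : X ⊆ S.F \ rm₂ := sdiff_subset_sdiff subset_rfl subset_union_right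
  have hcov₁ : ∀ t ∈ rm₁, Cov pt R C t := by
    refine b₁.cov C hit₁ fun a ha hnc => ?_
    have h1 := mem_bd.1 (b₁.G_mem ha)
    by_cases h2 : (S.g a).1 ∈ rm₂
    · refine ⟨c₂.2, ?_⟩
      rw [ha₁ a ha h2]
      exact hit₂
    · have h3 : (S.g a).1 ∈ X :=
        mem_sdiff.2 ⟨g_memF h1.1, fun h4 => (mem_union.1 h4).elim h1.2.2 h2⟩
      exact hitN _ h3 (hnc.mono (keep_mono S hXsub₁) (by rw [keep_F S hX]; exact h3))
  have hcov₂ : ∀ t ∈ rm₂, Cov pt R C t := by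
    refine b₂.cov C hit₂ fun a ha hnc => ?_
    have h1 := mem_bd.1 (b₂.G_mem ha)
    by_cases h2 : (S.g a).1 ∈ rm₁
    · refine ⟨c₁.2, ?_⟩
      rw [ha₂ a ha h2]
      exact hit₁
    · have h3 : (S.g a).1 ∈ X :=
        mem_sdiff.2 ⟨g_memF h1.1, fun h4 => (mem_union.1 h4).elim h2 h1.2.2⟩
      exact hitN _ h3 (hnc.mono (keep_mono S hXsub₂) (by rw [keep_F S hX]; exact h3))
  have hsol : Sol S pt R ∅ C := by
    refine ⟨?_, by simp, ?_, ?_, ?_⟩
    · intro c hc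
      rw [mem_sides]
      exact hX (hC.sub c hc)
    · intro a ha
      have h1 : a.1 ∈ X := mem_sdiff.2 ⟨S.earF a ha, fun h4 =>
        (mem_union.1 h4).elim (b₁.ears a ha) (b₂.ears a ha)⟩
      rcases hC.ear a ha h1 with ⟨d, hd, h2⟩ | ⟨d, hd, h2⟩
      · exact Or.inl ⟨d, hd, vrel_eqv h2⟩
      · exact Or.inr ⟨d, hd, vrel_eqv h2⟩
    · intro t ht
      exact absurd ht (not_noncore hS.conn hB b₁.glued t)
    · intro t ht
      by_cases h1 : t ∈ rm₁
      · exact hcov₁ t h1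
      · by_cases h2 : t ∈ rm₂
        · exact hcov₂ t h2
        · exact hC.cov t (mem_sdiff.2 ⟨ht, fun h3 => (mem_union.1 h3).elim h1 h2⟩)
  refine hS.bad ⟨insert d₀ (C.filter fun d => ¬ S.Eqv d c₁), hsol.shrink hS.geo ?_ ?_, ?_⟩
  · exact insert_subset hd₀ (filter_subset _ _)
  · intro d hd
    by_cases h1 : S.Eqv d c₁
    · exact ⟨d₀, mem_insert_self _ _, h1.trans hd₀c.symm⟩
    · exact ⟨d, mem_insert_of_mem (mem_filter.2 ⟨hd, h1⟩), Eqv.refl _ _⟩
  · have h1 := card_insert_le d₀ (C.filter fun d => ¬ S.Eqv d c₁)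
    have h2 := Finset.card_filter_add_card_filter_not (s := C) (fun d => S.Eqv d c₁)
    have h3 : (S.keep X).N2 W.card = (S.keep X).N2 0 + 4 * W.card := by
      simp only [N2]; omega
    rw [card_empty]
    omega

end Obj

end AG
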