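import Pool.Agent.AG.Pair.Bld

/-!
# Project AG, block 5 (pair rule): the cuts

`cut_nonadj`: two abstract blades at one visit whose removed sets are disjoint and not joined by a
glued side: the two stub sides form a 2-cut.
`adj_step`: the same for adjacent blades (one glued side between the removed sets); moreover the
common side is the stub of none of them.
-/

set_option linter.unusedSectionVars false
set_option linter.unusedSimpArgs false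

namespace AG

open Finset

variable {I : Type} [DecidableEq I]

namespace Obj

theorem bd_asymm {S : Obj I} {T : Finset I} {a : Sd I} (h : a ∈ S.bd T) : S.g a ∉ S.bd T := by
  intro h'
  rw [mem_bd] at h h'
  exact h.2.2 h'.2.1

theorem no_edge {S : Obj I} (hc : S.Conn) {T : Finset I} (hT : T ⊆ S.F) (hne : T.Nonempty)
    (hTF : T ≠ S.F) (h : ∀ a, a ∉ S.bd T) : False := by
  obtain ⟨a, ha⟩ := hc.2 T hT hne hTF
  exact h a ha

theorem one_edge {S : Obj I} (hc : S.Conn) (hB : S.Bridgeless) {T : Finset I} (hT : T ⊆ S.F)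
    (hne : T.Nonempty) (hTF : T ≠ S.F) {s : Sd I} (h : ∀ a ∈ S.bd T, a = s) : False := by
  have h1 := hc.2 T hT hne hTF
  have h2 := hB.two_le hT h1
  have h3 : S.bd T ⊆ {s} := fun a ha => mem_singleton.2 (h a ha)
  have h4 := card_le_card h3
  rw [card_singleton] at h4
  omega

theorem two_edges {S : Obj I} (hc : S.Conn) (hB : S.Bridgeless) {T : Finset I} (hT : T ⊆ S.F)
    (hne : T.Nonempty) (hTF : T ≠ S.F) {s₁ s₂ : Sd I}
    (h : ∀ a ∈ S.bd T, (a = s₁ ∨ a = S.g s₁) ∨ (a = s₂ ∨ a = S.g s₂)) :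
    ∃ e₁ e₂, (e₁ = s₁ ∨ e₁ = S.g s₁) ∧ (e₂ = s₂ ∨ e₂ = S.g s₂) ∧ S.bd T = {e₁, e₂} ∧
      e₁ ≠ e₂ := by
  have h1 := hc.2 T hT hne hTF
  have h2 := hB.two_le hT h1
  obtain ⟨a, ha, b, hb, hab⟩ := one_lt_card.1 (show 1 < (S.bd T).card by omega)
  -- two elements of the boundary in `{s, g s}` are equal
  have key : ∀ s : Sd I, ∀ x ∈ S.bd T, ∀ z ∈ S.bd T, (x = s ∨ x = S.g s) →
      (z = s ∨ z = S.g s) → x = z := by
    rintro s x hx z hz (hx1 | hx1) (hz1 | hz1)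
    · rw [hx1, hz1]
    · subst hx1; subst hz1; exact absurd hz (bd_asymm hx)
    · subst hx1; subst hz1; exact absurd hx (bd_asymm hz)
    · rw [hx1, hz1]
  have fin : ∀ x ∈ S.bd T, ∀ z ∈ S.bd T, (x = s₁ ∨ x = S.g s₁) → (z = s₂ ∨ z = S.g s₂) →
      x ≠ z → ∃ e₁ e₂, (e₁ = s₁ ∨ e₁ = S.g s₁) ∧ (e₂ = s₂ ∨ e₂ = S.g s₂) ∧
        S.bd T = {e₁, e₂} ∧ e₁ ≠ e₂ := by
    intro x hx z hz h3 h4 h5
    refine ⟨x, z, h3, h4, ?_, h5⟩
    refine subset_antisymm (fun u hu => ?_) (insert_subset hx (singleton_subset_iff.2 hz))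
    rw [mem_insert, mem_singleton]
    rcases h u hu with h6 | h6
    · exact Or.inl (key s₁ u hu x hx h6 h3)
    · exact Or.inr (key s₂ u hu z hz h6 h4)
  rcases h a ha with h3 | h3
  · rcases h b hb with h4 | h4
    · exact absurd (key s₁ a ha b hb h3 h4) hab
    · exact fin a ha b hb h3 h4 hab
  · rcases h b hb with h4 | h4
    · exact fin b hb a ha h4 h3 hab.symm
    · exact absurd (key s₂ a ha b hb h3 h4) hab

theorem keep_unglued {S : Obj I} {X : Finset I} {a : Sd I} (h : (S.g a).1 ∉ X) :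
    (S.keep X).g a = a := by
  rw [keep_g, if_neg fun h' => h h'.2]

/-- the count for two removed sets -/
theorem N2_two {S : Obj I} {pt : Sd I → Pt} {R : Set Pt} {c₁ c₂ σ₁ σ₂ y₁ y₂ : Sd I}
    {rm₁ rm₂ : Finset I} {G₁ G₂ : Finset (Sd I)} (b₁ : S.Bld pt R c₁ rm₁ σ₁ G₁ y₁)
    (b₂ : S.Bld pt R c₂ rm₂ σ₂ G₂ y₂) (hd : Disjoint rm₁ rm₂) :
    (S.keep (S.F \ (rm₁ ∪ rm₂))).N2 0
      + 2 * ((S.bd rm₁).filter (fun a => (S.g a).1 ∈ rm₂)).card = S.N2 0 := by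
  have h1 := N2_rmSet S (union_subset b₁.sub b₂.sub)
    (fun a ha h => (mem_union.1 h).elim (b₁.ears a ha) (b₂.ears a ha)) 0
  have h2 := card_bd_union S hd
  have h3 : (S.bd rm₁).card = G₁.card + 1 := by
    rw [b₁.bd, card_insert_of_notMem b₁.nin]
  have h4 : (S.bd rm₂).card = G₂.card + 1 := by
    rw [b₂.bd, card_insert_of_notMem b₂.nin]
  have h5 : (S.vis.filter (fun a => a.1 ∈ rm₁ ∪ rm₂)).card
      = (S.vis.filter (fun a => a.1 ∈ rm₁)).card + (S.vis.filter (fun a => a.1 ∈ rm₂)).card := by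
    rw [← card_union_of_disjoint]
    · congr 1
      ext a
      simp only [mem_filter, mem_union]
      tauto
    · rw [disjoint_left]
      intro a ha hb
      exact disjoint_left.1 hd (mem_filter.1 ha).2 (mem_filter.1 hb).2
  have h6 : (rm₁ ∪ rm₂).card = rm₁.card + rm₂.card := card_union_of_disjoint hd
  have h7 := b₁.card
  have h8 := b₂.card
  omega

section

variable {S : Obj I} {pt : Sd I → Pt} {R : Set Pt} {c₁ c₂ σ₁ σ₂ y₁ y₂ : Sd I}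
    {rm₁ rm₂ : Finset I} {G₁ G₂ : Finset (Sd I)}

/-- the last corner of the fan is not in a removed triangle -/
theorem Bld.last_notMem (hL : S.Linear) (b₁ : S.Bld pt R c₁ rm₁ σ₁ G₁ y₁) {c : Sd I}
    (h : S.Eqv c c₁) : (S.last c).1 ∉ rm₁ := by
  intro h1
  have h2 := b₁.only _ h1 ((last_eqv S c).symm.trans h)
  have h3 := last_unglued hL c
  rw [h2] at h3
  exact b₁.glued h3

/-- the corner before `c` in the fan is not in the removed set of the blade at `c` -/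
theorem Bld.prev (b₁ : S.Bld pt R c₁ rm₁ σ₁ G₁ y₁) : (S.g (unrot c₁)).1 ∉ rm₁ :=
  (mem_bd.1 b₁.uc_mem).2.2

theorem Bld.prev_eqv (b₁ : S.Bld pt R c₁ rm₁ σ₁ G₁ y₁) : S.Eqv (S.g (unrot c₁)) c₁ := by
  have h := Eqv.of_glued' (mem_bd.1 b₁.uc_mem).1
  rw [rot_unrot] at h
  exact h.symm

/-- PAIR RULE, blades which are not adjacent -/
theorem cut_nonadj (hS : Cex S pt R) (hB : S.Bridgeless) (hL : S.Linear)
    (b₁ : S.Bld pt R c₁ rm₁ σ₁ G₁ y₁) (b₂ : S.Bld pt R c₂ rm₂ σ₂ G₂ y₂)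
    (he : S.Eqv c₁ c₂) (hne : c₁ ≠ c₂) (hd : Disjoint rm₁ rm₂)
    (hna : ∀ a ∈ S.bd rm₁, (S.g a).1 ∉ rm₂) :
    ∃ T ⊆ S.F, ∃ e₁ e₂, (e₁ = σ₁ ∨ e₁ = S.g σ₁) ∧ (e₂ = σ₂ ∨ e₂ = S.g σ₂) ∧
      S.bd T = {e₁, e₂} ∧ e₁ ≠ e₂ := by
  classical
  have hna' : ∀ a ∈ S.bd rm₂, (S.g a).1 ∉ rm₁ := by
    intro a ha h
    rw [mem_bd] at ha
    refine hna (S.g a) ?_ (by rw [S.invol]; exact ha.2.1)
    rw [mem_bd, S.invol]
    exact ⟨ne_comm.1 ha.1, h, fun h1 => disjoint_left.1 hd h1 ha.2.1⟩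
  set X : Finset I := S.F \ (rm₁ ∪ rm₂) with hXdef
  have hX : X ⊆ S.F := sdiff_subset
  have hmemX : ∀ t ∈ S.F, t ∉ rm₁ → t ∉ rm₂ → t ∈ X := fun t h1 h2 h3 =>
    mem_sdiff.2 ⟨h1, fun h4 => (mem_union.1 h4).elim h2 h3⟩
  have hXrm₁ : ∀ t ∈ X, t ∉ rm₁ := fun t ht h => (mem_sdiff.1 ht).2 (mem_union_left _ h)
  have hXrm₂ : ∀ t ∈ X, t ∉ rm₂ := fun t ht h => (mem_sdiff.1 ht).2 (mem_union_right _ h)
  -- the three copies of the visit
  set w₁ := S.g (unrot c₁) with hw₁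
  set w₂ := S.g (unrot c₂) with hw₂
  set w₃ := S.last c₁ with hw₃
  have hg₁ : S.g (unrot c₁) ≠ unrot c₁ := (mem_bd.1 b₁.uc_mem).1
  have hg₂ : S.g (unrot c₂) ≠ unrot c₂ := (mem_bd.1 b₂.uc_mem).1
  have hw₁X : w₁.1 ∈ X := hmemX _ (g_memF hg₁) b₁.prev (hna _ b₁.uc_mem)
  have hw₂X : w₂.1 ∈ X := hmemX _ (g_memF hg₂) (hna' _ b₂.uc_mem) b₂.prev
  have hw₃F : w₃.1 ∈ S.F := by
    have := last_mem_vis hL (a := c₁) (mem_sides.2 (b₁.sub b₁.mem))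
    exact (mem_vis.1 this).1
  have hw₃X : w₃.1 ∈ X := hmemX _ hw₃F (b₁.last_notMem hL (Eqv.refl _ _)) (b₂.last_notMem hL he)
  have h12 : w₁ ≠ w₂ := fun h => hne (by
    have h1 := S.g_injective h
    rw [← rot_unrot c₁, h1, rot_unrot])
  have hun₃ : S.g w₃ = w₃ := last_unglued hL c₁
  have h13 : w₁ ≠ w₃ := fun h => by
    rw [← h, hw₁, S.invol] at hun₃
    exact hg₁ hun₃.symm
  have h23 : w₂ ≠ w₃ := fun h => by
    rw [← h, hw₂, S.invol] at hun₃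
    exact hg₂ hun₃.symm
  have hk₁ : (S.keep X).g w₁ = w₁ := keep_unglued (by
    rw [hw₁, S.invol]; exact fun h => hXrm₁ _ h b₁.mem)
  have hk₂ : (S.keep X).g w₂ = w₂ := keep_unglued (by
    rw [hw₂, S.invol]; exact fun h => hXrm₂ _ h b₂.mem)
  have hk₃ : (S.keep X).g w₃ = w₃ := by
    rcases (keep_le S X).g w₃ with h | h
    · rw [h, hun₃]
    · exact h
  have hLX : (S.keep X).Linear := Linear.mono (keep_le S X) hL
  have hW : ∀ w ∈ ({w₁, w₂, w₃} : Finset (Sd I)), (S.keep X).last w = w := by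
    intro w hw
    rw [mem_insert, mem_insert, mem_singleton] at hw
    rcases hw with h | h | h <;> subst h
    · exact last_of_unglued hk₁
    · exact last_of_unglued hk₂
    · exact last_of_unglued hk₃
  have hcard : ({w₁, w₂, w₃} : Finset (Sd I)).card = 3 := by
    rw [card_insert_of_notMem, card_insert_of_notMem, card_singleton]
    · rw [mem_singleton]; exact h23
    · rw [mem_insert, mem_singleton]; rintro (h | h)
      · exact h12 h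
      · exact h13 h
  have hfil : (S.bd rm₁).filter (fun a => (S.g a).1 ∈ rm₂) = ∅ :=
    filter_eq_empty_iff.2 fun a ha => hna a ha
  have hN := N2_two b₁ b₂ hd
  rw [hfil, card_empty] at hN
  obtain ⟨Y, hYX, hYne, hYneX, hYc, hYl⟩ := not_linked hS hB b₁ b₂ he
    (fun a ha h => absurd h (hna a (b₁.G_mem ha))) (fun a ha h => absurd h (hna' a (b₂.G_mem ha)))
    (W := {w₁, w₂, w₃})
    (by
      intro w hw
      rw [mem_insert, mem_insert, mem_singleton] at hw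
      rcases hw with h | h | h <;> subst h
      · exact hw₁X
      · exact hw₂X
      · exact hw₃X)
    (by
      intro w hw
      rw [mem_insert, mem_insert, mem_singleton] at hw
      rcases hw with h | h | h <;> subst h
      · exact b₁.prev_eqv
      · exact b₂.prev_eqv.trans he.symm
      · exact (last_eqv S c₁).symm)
    (by
      intro w hw w' hw' h
      rw [eqv_iff hLX, hW w hw, hW w' hw'] at h
      exact h)
    ⟨w₁, mem_insert_self _ _⟩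
    (by rw [hcard]; omega)
  rw [← hXdef] at hYX hYneX hYc hYl
  -- the groups
  have grp₁ : ∀ a ∈ G₁, ∀ b ∈ G₁, (S.g a).1 ∈ Y → (S.g b).1 ∈ Y := by
    intro a ha b hb h
    obtain ⟨p, hp1, hp2⟩ := b₁.link' ha
    obtain ⟨q, hq1, hq2⟩ := b₁.link' hb
    have hb' := mem_bd.1 (b₁.G_mem hb)
    have h1 : (S.g b).1 ∈ X := hmemX _ (g_memF hb'.1) hb'.2.2 (hna _ (b₁.G_mem hb))
    have := hYl p q (hp2.symm.trans hq2) (fun h2 => b₁.ny (hp2.trans h2))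
      (by rw [hp1]; exact h) (by rw [hq1]; exact h1)
    rwa [hq1] at this
  have grp₂ : ∀ a ∈ G₂, ∀ b ∈ G₂, (S.g a).1 ∈ Y → (S.g b).1 ∈ Y := by
    intro a ha b hb h
    obtain ⟨p, hp1, hp2⟩ := b₂.link' ha
    obtain ⟨q, hq1, hq2⟩ := b₂.link' hb
    have hb' := mem_bd.1 (b₂.G_mem hb)
    have h1 : (S.g b).1 ∈ X := hmemX _ (g_memF hb'.1) (hna' _ (b₂.G_mem hb)) hb'.2.2
    have := hYl p q (hp2.symm.trans hq2) (fun h2 => b₂.ny (hp2.trans (h2.trans he)))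
      (by rw [hp1]; exact h) (by rw [hq1]; exact h1)
    rwa [hq1] at this
  -- the set
  let T : Finset I := Y ∪ ((if ∃ a ∈ G₁, (S.g a).1 ∈ Y then rm₁ else ∅)
    ∪ (if ∃ a ∈ G₂, (S.g a).1 ∈ Y then rm₂ else ∅))
  have hmemT : ∀ t, t ∈ T ↔ t ∈ Y ∨ ((∃ a ∈ G₁, (S.g a).1 ∈ Y) ∧ t ∈ rm₁) ∨
      ((∃ a ∈ G₂, (S.g a).1 ∈ Y) ∧ t ∈ rm₂) := by
    intro t
    simp only [T, mem_union]
    by_cases h1 : ∃ a ∈ G₁, (S.g a).1 ∈ Y <;> by_cases h2 : ∃ a ∈ G₂, (S.g a).1 ∈ Y <;>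
      simp [h1, h2]
  have hTF : T ⊆ S.F := by
    intro t ht
    rcases (hmemT t).1 ht with h | ⟨_, h⟩ | ⟨_, h⟩
    · exact hX (hYX h)
    · exact b₁.sub h
    · exact b₂.sub h
  have hYT : Y ⊆ T := fun t ht => (hmemT t).2 (Or.inl ht)
  have hTne : T ≠ S.F := by
    intro h
    obtain ⟨s, hs1, hs2⟩ : ∃ s ∈ X, s ∉ Y := by
      by_contra hcon
      push_neg at hcon
      exact hYneX (subset_antisymm hYX hcon)
    have h1 : s ∈ T := by rw [h]; exact hX hs1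
    rcases (hmemT s).1 h1 with h2 | ⟨_, h2⟩ | ⟨_, h2⟩
    · exact hs2 h2
    · exact hXrm₁ s hs1 h2
    · exact hXrm₂ s hs1 h2
  obtain ⟨e₁, e₂, h1, h2, h3, h4⟩ := two_edges hS.conn hB hTF (hYne.mono hYT) hTne
    (s₁ := σ₁) (s₂ := σ₂) (by
    intro a ha
    rw [mem_bd] at ha
    obtain ⟨ha1, ha2, ha3⟩ := ha
    have ha3' := fun h => ha3 ((hmemT _).2 h)
    rcases (hmemT _).1 ha2 with h | ⟨⟨b, hb1, hb2⟩, h⟩ | ⟨⟨b, hb1, hb2⟩, h⟩
    · by_cases h5 : (S.g a).1 ∈ rm₁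
      · have h6 : S.g a ∈ S.bd rm₁ := by
          rw [mem_bd, S.invol]
          exact ⟨ne_comm.1 ha1, h5, hXrm₁ _ (hYX h)⟩
        rw [b₁.bd, mem_insert] at h6
        rcases h6 with h6 | h6
        · exact Or.inl (Or.inr (by rw [← h6, S.invol]))
        · exact absurd (Or.inr (Or.inl ⟨⟨S.g a, h6, by rw [S.invol]; exact h⟩, h5⟩)) ha3'
      · by_cases h7 : (S.g a).1 ∈ rm₂
        · have h6 : S.g a ∈ S.bd rm₂ := by
            rw [mem_bd, S.invol]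
            exact ⟨ne_comm.1 ha1, h7, hXrm₂ _ (hYX h)⟩
          rw [b₂.bd, mem_insert] at h6
          rcases h6 with h6 | h6
          · exact Or.inr (Or.inr (by rw [← h6, S.invol]))
          · exact absurd (Or.inr (Or.inr ⟨⟨S.g a, h6, by rw [S.invol]; exact h⟩, h7⟩)) ha3'
        · exact absurd (Or.inl (hYc a ha1 h (hmemX _ (g_memF ha1) h5 h7))) ha3'
    · have h6 : a ∈ S.bd rm₁ := mem_bd.2 ⟨ha1, h, fun h7 => ha3' (Or.inr (Or.inl ⟨⟨b, hb1, hb2⟩, h7⟩))⟩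
      rw [b₁.bd, mem_insert] at h6
      rcases h6 with h6 | h6
      · exact Or.inl (Or.inl h6)
      · exact absurd (Or.inl (grp₁ b hb1 a h6 hb2)) ha3'
    · have h6 : a ∈ S.bd rm₂ := mem_bd.2 ⟨ha1, h, fun h7 => ha3' (Or.inr (Or.inr ⟨⟨b, hb1, hb2⟩, h7⟩))⟩
      rw [b₂.bd, mem_insert] at h6
      rcases h6 with h6 | h6
      · exact Or.inr (Or.inl h6)
      · exact absurd (Or.inl (grp₂ b hb1 a h6 hb2)) ha3')
  exact ⟨T, hTF, e₁, e₂, h1, h2, h3, h4⟩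

/-- the data of the adjacent case: `κ` is the only glued side from `rm₁` to `rm₂`, `W` two
different copies of the visit.  The part is not linked. -/
theorem not_linked_adj (hS : Cex S pt R) (hB : S.Bridgeless) (hL : S.Linear)
    (b₁ : S.Bld pt R c₁ rm₁ σ₁ G₁ y₁) (b₂ : S.Bld pt R c₂ rm₂ σ₂ G₂ y₂)
    (hst : S.Step c₁ c₂) (hd : Disjoint rm₁ rm₂)
    (huniq : ∀ a ∈ S.bd rm₁, (S.g a).1 ∈ rm₂ → a = c₁) :
    ∃ Y ⊆ S.F \ (rm₁ ∪ rm₂), Y.Nonempty ∧ Y ≠ S.F \ (rm₁ ∪ rm₂) ∧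
      S.Closed (S.F \ (rm₁ ∪ rm₂)) Y ∧
      ∀ p q, S.Eqv p q → ¬ S.Eqv p c₁ → p.1 ∈ Y → q.1 ∈ S.F \ (rm₁ ∪ rm₂) → q.1 ∈ Y := by
  classical
  have he : S.Eqv c₁ c₂ := Relation.EqvGen.rel _ _ hst
  have hgc : S.g c₁ = unrot c₂ := by rw [hst.2, unrot_rot]
  have hgc1 : (S.g c₁).1 = c₂.1 := by rw [hgc]; rfl
  have huniq' : ∀ a ∈ S.bd rm₂, (S.g a).1 ∈ rm₁ → a = unrot c₂ := by
    intro a ha h
    rw [mem_bd] at ha
    have h1 := huniq (S.g a) (by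
      rw [mem_bd, S.invol]
      exact ⟨ne_comm.1 ha.1, h, fun h1 => disjoint_left.1 hd h1 ha.2.1⟩)
      (by rw [S.invol]; exact ha.2.1)
    rw [← hgc, ← h1, S.invol]
  set X : Finset I := S.F \ (rm₁ ∪ rm₂) with hXdef
  have hX : X ⊆ S.F := sdiff_subset
  have hmemX : ∀ t ∈ S.F, t ∉ rm₁ → t ∉ rm₂ → t ∈ X := fun t h1 h2 h3 =>
    mem_sdiff.2 ⟨h1, fun h4 => (mem_union.1 h4).elim h2 h3⟩
  have hXrm₁ : ∀ t ∈ X, t ∉ rm₁ := fun t ht h => (mem_sdiff.1 ht).2 (mem_union_left _ h)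
  have hXrm₂ : ∀ t ∈ X, t ∉ rm₂ := fun t ht h => (mem_sdiff.1 ht).2 (mem_union_right _ h)
  set w₁ := S.g (unrot c₁) with hw₁
  set w₃ := S.last c₁ with hw₃
  have hg₁ : S.g (unrot c₁) ≠ unrot c₁ := (mem_bd.1 b₁.uc_mem).1
  have hw₁X : w₁.1 ∈ X := hmemX _ (g_memF hg₁) b₁.prev
    (fun h => unrot_ne c₁ (huniq _ b₁.uc_mem h))
  have hw₃F : w₃.1 ∈ S.F := by
    have := last_mem_vis hL (a := c₁) (mem_sides.2 (b₁.sub b₁.mem))
    exact (mem_vis.1 this).1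
  have hw₃X : w₃.1 ∈ X := hmemX _ hw₃F (b₁.last_notMem hL (Eqv.refl _ _)) (b₂.last_notMem hL he)
  have hun₃ : S.g w₃ = w₃ := last_unglued hL c₁
  have h13 : w₁ ≠ w₃ := fun h => by
    rw [← h, hw₁, S.invol] at hun₃
    exact hg₁ hun₃.symm
  have hk₁ : (S.keep X).g w₁ = w₁ := keep_unglued (by
    rw [hw₁, S.invol]; exact fun h => hXrm₁ _ h b₁.mem)
  have hk₃ : (S.keep X).g w₃ = w₃ := by
    rcases (keep_le S X).g w₃ with h | h
    · rw [h, hun₃]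
    · exact h
  have hLX : (S.keep X).Linear := Linear.mono (keep_le S X) hL
  have hW : ∀ w ∈ ({w₁, w₃} : Finset (Sd I)), (S.keep X).last w = w := by
    intro w hw
    rw [mem_insert, mem_singleton] at hw
    rcases hw with h | h <;> subst h
    · exact last_of_unglued hk₁
    · exact last_of_unglued hk₃
  have hcard : ({w₁, w₃} : Finset (Sd I)).card = 2 := card_pair h13
  have hfil : (S.bd rm₁).filter (fun a => (S.g a).1 ∈ rm₂) = {c₁} := by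
    ext a
    rw [mem_filter, mem_singleton]
    constructor
    · rintro ⟨h1, h2⟩; exact huniq a h1 h2
    · rintro rfl; exact ⟨b₁.c_mem, by rw [hgc1]; exact b₂.mem⟩
  have hN := N2_two b₁ b₂ hd
  rw [hfil, card_singleton] at hN
  refine not_linked hS hB b₁ b₂ he ?_ ?_ (W := {w₁, w₃}) ?_ ?_ ?_ ⟨w₁, mem_insert_self _ _⟩ ?_
  · intro a ha h
    rw [huniq a (b₁.G_mem ha) h]; exact hgc1
  · intro a ha h
    rw [huniq' a (b₂.G_mem ha) h, ← hgc, S.invol]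
  · intro w hw
    rw [mem_insert, mem_singleton] at hw
    rcases hw with h | h <;> subst h
    · exact hw₁X
    · exact hw₃X
  · intro w hw
    rw [mem_insert, mem_singleton] at hw
    rcases hw with h | h <;> subst h
    · exact b₁.prev_eqv
    · exact (last_eqv S c₁).symm
  · intro w hw w' hw' h
    rw [eqv_iff hLX, hW w hw, hW w' hw'] at h
    exact h
  · rw [hcard]; omega

/-- adjacent case: the common side `κ` is not the stub of the first blade (symmetric form) -/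
theorem adj_false (hS : Cex S pt R) (hB : S.Bridgeless)
    (b₁ : S.Bld pt R c₁ rm₁ σ₁ G₁ y₁) (b₂ : S.Bld pt R c₂ rm₂ σ₂ G₂ y₂)
    (he : S.Eqv c₁ c₂) (hd : Disjoint rm₁ rm₂)
    (huniq : ∀ a ∈ S.bd rm₁, (S.g a).1 ∈ rm₂ → a = σ₁)
    (hσ : S.g σ₁ ∈ S.bd rm₂) (hG₂ : G₂.card ≤ 2)
    (hnl : ∃ Y ⊆ S.F \ (rm₁ ∪ rm₂), Y.Nonempty ∧ Y ≠ S.F \ (rm₁ ∪ rm₂) ∧
      S.Closed (S.F \ (rm₁ ∪ rm₂)) Y ∧
      ∀ p q, S.Eqv p q → ¬ S.Eqv p c₁ → p.1 ∈ Y → q.1 ∈ S.F \ (rm₁ ∪ rm₂) → q.1 ∈ Y) :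
    False := by
  classical
  set X : Finset I := S.F \ (rm₁ ∪ rm₂) with hXdef
  have hX : X ⊆ S.F := sdiff_subset
  have hmemX : ∀ t ∈ S.F, t ∉ rm₁ → t ∉ rm₂ → t ∈ X := fun t h1 h2 h3 =>
    mem_sdiff.2 ⟨h1, fun h4 => (mem_union.1 h4).elim h2 h3⟩
  have hXrm₁ : ∀ t ∈ X, t ∉ rm₁ := fun t ht h => (mem_sdiff.1 ht).2 (mem_union_left _ h)
  have hXrm₂ : ∀ t ∈ X, t ∉ rm₂ := fun t ht h => (mem_sdiff.1 ht).2 (mem_union_right _ h)
  have huniq' : ∀ a ∈ S.bd rm₂, (S.g a).1 ∈ rm₁ → a = S.g σ₁ := by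
    intro a ha h
    rw [mem_bd] at ha
    have h1 := huniq (S.g a) (by
      rw [mem_bd, S.invol]
      exact ⟨ne_comm.1 ha.1, h, fun h1 => disjoint_left.1 hd h1 ha.2.1⟩)
      (by rw [S.invol]; exact ha.2.1)
    rw [← h1, S.invol]
  have hG₁X : ∀ a ∈ G₁, (S.g a).1 ∈ X := by
    intro a ha
    have h1 := mem_bd.1 (b₁.G_mem ha)
    exact hmemX _ (g_memF h1.1) h1.2.2 fun h2 =>
      b₁.nin ((huniq a (b₁.G_mem ha) h2) ▸ ha)
  -- a closed linked set which does not contain the first group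
  obtain ⟨Z, hZX, hZne, hZneX, hZc, hZl, hZ₁⟩ : ∃ Z ⊆ X, Z.Nonempty ∧ Z ≠ X ∧ S.Closed X Z ∧
      (∀ p q, S.Eqv p q → ¬ S.Eqv p c₁ → p.1 ∈ Z → q.1 ∈ X → q.1 ∈ Z) ∧
      ∀ a ∈ G₁, (S.g a).1 ∉ Z := by
    obtain ⟨Y, hYX, hYne, hYneX, hYc, hYl⟩ := hnl
    have grp₁ : ∀ a ∈ G₁, ∀ b ∈ G₁, (S.g a).1 ∈ Y → (S.g b).1 ∈ Y := by
      intro a ha b hb h
      obtain ⟨p, hp1, hp2⟩ := b₁.link' ha
      obtain ⟨q, hq1, hq2⟩ := b₁.link' hb
      have := hYl p q (hp2.symm.trans hq2) (fun h2 => b₁.ny (hp2.trans h2))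
        (by rw [hp1]; exact h) (by rw [hq1]; exact hG₁X b hb)
      rwa [hq1] at this
    by_cases hex : ∃ a ∈ G₁, (S.g a).1 ∈ Y
    · obtain ⟨a, ha, h⟩ := hex
      refine ⟨X \ Y, sdiff_subset, ?_, ?_, hYc.sdiff, ?_, ?_⟩
      · rw [sdiff_nonempty]; exact fun h1 => hYneX (subset_antisymm hYX h1)
      · intro h1
        obtain ⟨s, hs⟩ := hYne
        have : s ∈ X \ Y := by rw [h1]; exact hYX hs
        exact (mem_sdiff.1 this).2 hs
      · intro p q hpq hpc hp hq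
        rw [mem_sdiff] at hp ⊢
        refine ⟨hq, fun hqY => hp.2 ?_⟩
        exact hYl q p hpq.symm (fun h2 => hpc (hpq.trans h2)) hqY hp.1
      · intro b hb h1
        exact (mem_sdiff.1 h1).2 (grp₁ a ha b hb h)
    · push_neg at hex
      exact ⟨Y, hYX, hYne, hYneX, hYc, hYl, hex⟩
  have hZF : Z ≠ S.F := by
    intro h
    have h1 : c₁.1 ∈ Z := by rw [h]; exact b₁.sub b₁.mem
    exact hXrm₁ _ (hZX h1) b₁.mem
  -- sides which leave `Z`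
  have hout : ∀ a, S.g a ≠ a → a.1 ∈ Z → (S.g a).1 ∉ Z →
      S.g a ∈ S.bd rm₂ ∧ S.g a ≠ S.g σ₁ := by
    intro a ha1 ha2 ha3
    have h1 : (S.g a).1 ∉ rm₁ := by
      intro h2
      have h3 : S.g a ∈ S.bd rm₁ := by
        rw [mem_bd, S.invol]; exact ⟨ne_comm.1 ha1, h2, hXrm₁ _ (hZX ha2)⟩
      rw [b₁.bd, mem_insert] at h3
      rcases h3 with h3 | h3
      · have h4 : a = S.g σ₁ := by rw [← h3, S.invol]
        rw [h4] at ha2
        exact hXrm₂ _ (hZX ha2) (mem_bd.1 hσ).2.1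
      · refine hZ₁ _ h3 ?_
        rw [S.invol]; exact ha2
    have h2 : (S.g a).1 ∈ rm₂ := by
      by_contra h3
      exact ha3 (hZc a ha1 ha2 (hmemX _ (g_memF ha1) h1 h3))
    refine ⟨?_, fun h3 => ?_⟩
    · rw [mem_bd, S.invol]; exact ⟨ne_comm.1 ha1, h2, hXrm₂ _ (hZX ha2)⟩
    · have h4 := S.g_injective h3
      rw [h4] at ha2
      exact hXrm₁ _ (hZX ha2) (mem_bd.1 b₁.σ_mem).2.1
  -- if all sides of `bd rm₂` except the common one lead to `Z` we have a bridge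
  have hall : ∀ (h : ∀ a ∈ S.bd rm₂, a ≠ S.g σ₁ → (S.g a).1 ∈ Z), False := by
    intro h
    have hT : Z ∪ rm₂ ⊆ S.F := union_subset (hZX.trans hX) b₂.sub
    refine one_edge hS.conn hB hT (hZne.mono subset_union_left) ?_ (s := S.g σ₁) ?_
    · intro h1
      have h2 : c₁.1 ∈ Z ∪ rm₂ := by rw [h1]; exact b₁.sub b₁.mem
      rcases mem_union.1 h2 with h3 | h3
      · exact hXrm₁ _ (hZX h3) b₁.mem
      · exact disjoint_left.1 hd b₁.mem h3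
    · intro a ha
      rw [mem_bd] at ha
      obtain ⟨ha1, ha2, ha3⟩ := ha
      rcases mem_union.1 ha2 with h2 | h2
      · have h3 := hout a ha1 h2 fun h4 => ha3 (mem_union_left _ h4)
        exact absurd (mem_union_right _ (mem_bd.1 h3.1).2.1) ha3
      · by_contra h3
        have h4 : a ∈ S.bd rm₂ := mem_bd.2 ⟨ha1, h2, fun h4 => ha3 (mem_union_right _ h4)⟩
        exact ha3 (mem_union_left _ (h a h4 h3))
  have hσ' := hσ
  rw [b₂.bd, mem_insert] at hσ'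
  rcases hσ' with hσ' | hσ'
  · -- the common side is the stub of both
    have hG₂X : ∀ a ∈ G₂, (S.g a).1 ∈ X := by
      intro a ha
      have h1 := mem_bd.1 (b₂.G_mem ha)
      refine hmemX _ (g_memF h1.1) (fun h2 => b₂.nin ?_) h1.2.2
      rw [← hσ', ← huniq' a (b₂.G_mem ha) h2]; exact ha
    have grp₂ : ∀ a ∈ G₂, ∀ b ∈ G₂, (S.g a).1 ∈ Z → (S.g b).1 ∈ Z := by
      intro a ha b hb h
      obtain ⟨p, hp1, hp2⟩ := b₂.link' ha
      obtain ⟨q, hq1, hq2⟩ := b₂.link' hb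
      have := hZl p q (hp2.symm.trans hq2) (fun h2 => b₂.ny (hp2.trans (h2.trans he)))
        (by rw [hp1]; exact h) (by rw [hq1]; exact hG₂X b hb)
      rwa [hq1] at this
    by_cases hex : ∃ a ∈ G₂, (S.g a).1 ∈ Z
    · obtain ⟨a, ha, h⟩ := hex
      refine hall fun b hb hb' => ?_
      rw [b₂.bd, mem_insert] at hb
      rcases hb with hb | hb
      · exact absurd (hb.trans hσ'.symm) hb'
      · exact grp₂ a ha b hb h
    · push_neg at hex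
      refine no_edge hS.conn (hZX.trans hX) hZne hZF fun a ha => ?_
      rw [mem_bd] at ha
      obtain ⟨h1, h2⟩ := hout a ha.1 ha.2.1 ha.2.2
      rw [b₂.bd, mem_insert] at h1
      rcases h1 with h1 | h1
      · exact h2 (h1.trans hσ'.symm)
      · refine hex _ h1 ?_
        rw [S.invol]; exact ha.2.1
  · -- the common side is in the group of the second blade
    have h1 : (S.bd Z).image S.g ⊆ (S.bd rm₂).erase (S.g σ₁) := by
      intro b hb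
      obtain ⟨a, ha, rfl⟩ := mem_image.1 hb
      rw [mem_bd] at ha
      obtain ⟨h1, h2⟩ := hout a ha.1 ha.2.1 ha.2.2
      exact mem_erase.2 ⟨h2, h1⟩
    have h2 : ((S.bd rm₂).erase (S.g σ₁)).card ≤ 2 := by
      rw [card_erase_of_mem hσ, b₂.bd, card_insert_of_notMem b₂.nin]
      omega
    have h3 := hB.two_le (hZX.trans hX) (hS.conn.2 Z (hZX.trans hX) hZne hZF)
    have h4 : (S.bd Z).image S.g = (S.bd rm₂).erase (S.g σ₁) := by
      refine eq_of_subset_of_card_le h1 ?_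
      rw [card_image_of_injective _ S.g_injective]
      omega
    refine hall fun a ha ha' => ?_
    have h5 : a ∈ (S.bd Z).image S.g := by rw [h4]; exact mem_erase.2 ⟨ha', ha⟩
    obtain ⟨b, hb, rfl⟩ := mem_image.1 h5
    rw [S.invol]; exact (mem_bd.1 hb).2.1

/-- adjacent case, the common side is a group side of both blades: the two stubs form a cut -/
theorem adj_cut (hS : Cex S pt R) (hB : S.Bridgeless)
    (b₁ : S.Bld pt R c₁ rm₁ σ₁ G₁ y₁) (b₂ : S.Bld pt R c₂ rm₂ σ₂ G₂ y₂)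
    (hd : Disjoint rm₁ rm₂) {κ : Sd I}
    (huniq : ∀ a ∈ S.bd rm₁, (S.g a).1 ∈ rm₂ → a = κ)
    (hκ₁ : κ ∈ G₁) (hκ₂ : S.g κ ∈ G₂) (hyy : S.Eqv y₁ y₂)
    (hnl : ∃ Y ⊆ S.F \ (rm₁ ∪ rm₂), Y.Nonempty ∧ Y ≠ S.F \ (rm₁ ∪ rm₂) ∧
      S.Closed (S.F \ (rm₁ ∪ rm₂)) Y ∧
      ∀ p q, S.Eqv p q → ¬ S.Eqv p c₁ → p.1 ∈ Y → q.1 ∈ S.F \ (rm₁ ∪ rm₂) → q.1 ∈ Y) :
    ∃ T ⊆ S.F, ∃ e₁ e₂, (e₁ = σ₁ ∨ e₁ = S.g σ₁) ∧ (e₂ = σ₂ ∨ e₂ = S.g σ₂) ∧
      S.bd T = {e₁, e₂} ∧ e₁ ≠ e₂ := by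
  classical
  set X : Finset I := S.F \ (rm₁ ∪ rm₂) with hXdef
  have hX : X ⊆ S.F := sdiff_subset
  have hmemX : ∀ t ∈ S.F, t ∉ rm₁ → t ∉ rm₂ → t ∈ X := fun t h1 h2 h3 =>
    mem_sdiff.2 ⟨h1, fun h4 => (mem_union.1 h4).elim h2 h3⟩
  have hXrm₁ : ∀ t ∈ X, t ∉ rm₁ := fun t ht h => (mem_sdiff.1 ht).2 (mem_union_left _ h)
  have hXrm₂ : ∀ t ∈ X, t ∉ rm₂ := fun t ht h => (mem_sdiff.1 ht).2 (mem_union_right _ h)
  have huniq' : ∀ a ∈ S.bd rm₂, (S.g a).1 ∈ rm₁ → a = S.g κ := by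
    intro a ha h
    rw [mem_bd] at ha
    have h1 := huniq (S.g a) (by
      rw [mem_bd, S.invol]
      exact ⟨ne_comm.1 ha.1, h, fun h1 => disjoint_left.1 hd h1 ha.2.1⟩)
      (by rw [S.invol]; exact ha.2.1)
    rw [← h1, S.invol]
  -- the tied sides
  have tied : ∀ a, (a ∈ G₁ ∧ a ≠ κ) ∨ (a ∈ G₂ ∧ a ≠ S.g κ) →
      (S.g a).1 ∈ X ∧ ∃ p, p.1 = (S.g a).1 ∧ S.Eqv y₁ p := by
    rintro a (⟨ha, ha'⟩ | ⟨ha, ha'⟩)
    · have h1 := mem_bd.1 (b₁.G_mem ha)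
      exact ⟨hmemX _ (g_memF h1.1) h1.2.2 fun h2 => ha' (huniq a (b₁.G_mem ha) h2),
        b₁.link' ha⟩
    · have h1 := mem_bd.1 (b₂.G_mem ha)
      refine ⟨hmemX _ (g_memF h1.1) (fun h2 => ha' (huniq' a (b₂.G_mem ha) h2)) h1.2.2, ?_⟩
      obtain ⟨p, hp1, hp2⟩ := b₂.link' ha
      exact ⟨p, hp1, hyy.trans hp2⟩
  obtain ⟨Z, hZX, hZne, hZc, hZ₁⟩ : ∃ Z ⊆ X, Z.Nonempty ∧ S.Closed X Z ∧
      ∀ a, (a ∈ G₁ ∧ a ≠ κ) ∨ (a ∈ G₂ ∧ a ≠ S.g κ) → (S.g a).1 ∉ Z := by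
    obtain ⟨Y, hYX, hYne, hYneX, hYc, hYl⟩ := hnl
    by_cases hex : ∃ a, ((a ∈ G₁ ∧ a ≠ κ) ∨ (a ∈ G₂ ∧ a ≠ S.g κ)) ∧ (S.g a).1 ∈ Y
    · obtain ⟨a, ha, h⟩ := hex
      refine ⟨X \ Y, sdiff_subset, ?_, hYc.sdiff, ?_⟩
      · rw [sdiff_nonempty]; exact fun h1 => hYneX (subset_antisymm hYX h1)
      · intro b hb h1
        obtain ⟨h2, p, hp1, hp2⟩ := tied a ha
        obtain ⟨h3, q, hq1, hq2⟩ := tied b hb
        refine (mem_sdiff.1 h1).2 ?_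
        have := hYl p q (hp2.symm.trans hq2) (fun h2 => b₁.ny (hp2.trans h2))
          (by rw [hp1]; exact h) (by rw [hq1]; exact h3)
        rwa [hq1] at this
    · push_neg at hex
      exact ⟨Y, hYX, hYne, hYc, hex⟩
  have hZF : Z ≠ S.F := by
    intro h
    have h1 : c₁.1 ∈ Z := by rw [h]; exact b₁.sub b₁.mem
    exact hXrm₁ _ (hZX h1) b₁.mem
  obtain ⟨e₁, e₂, h1, h2, h3, h4⟩ := two_edges hS.conn hB (hZX.trans hX) hZne hZF
    (s₁ := σ₁) (s₂ := σ₂) (by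
    intro a ha
    rw [mem_bd] at ha
    obtain ⟨ha1, ha2, ha3⟩ := ha
    by_cases h5 : (S.g a).1 ∈ rm₁
    · have h6 : S.g a ∈ S.bd rm₁ := by
        rw [mem_bd, S.invol]
        exact ⟨ne_comm.1 ha1, h5, hXrm₁ _ (hZX ha2)⟩
      rw [b₁.bd, mem_insert] at h6
      rcases h6 with h6 | h6
      · exact Or.inl (Or.inr (by rw [← h6, S.invol]))
      · exfalso
        by_cases h7 : S.g a = κ
        · have h8 : a = S.g κ := by rw [← h7, S.invol]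
          rw [h8] at ha2
          exact hXrm₂ _ (hZX ha2) (mem_bd.1 (b₂.G_mem hκ₂)).2.1
        · refine hZ₁ _ (Or.inl ⟨h6, h7⟩) ?_
          rw [S.invol]; exact ha2
    · by_cases h7 : (S.g a).1 ∈ rm₂
      · have h6 : S.g a ∈ S.bd rm₂ := by
          rw [mem_bd, S.invol]
          exact ⟨ne_comm.1 ha1, h7, hXrm₂ _ (hZX ha2)⟩
        rw [b₂.bd, mem_insert] at h6
        rcases h6 with h6 | h6
        · exact Or.inr (Or.inr (by rw [← h6, S.invol]))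
        · exfalso
          by_cases h8 : S.g a = S.g κ
          · have h9 := S.g_injective h8
            rw [h9] at ha2
            exact hXrm₁ _ (hZX ha2) (mem_bd.1 (b₁.G_mem hκ₁)).2.1
          · refine hZ₁ _ (Or.inr ⟨h6, h8⟩) ?_
            rw [S.invol]; exact ha2
      · exact absurd (hZc a ha1 ha2 (hmemX _ (g_memF ha1) h5 h7)) ha3)
  exact ⟨Z, hZX.trans hX, e₁, e₂, h1, h2, h3, h4⟩

/-- PAIR RULE, adjacent blades (`c₂` the clockwise neighbour of `c₁`) -/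
theorem adj_step (hS : Cex S pt R) (hB : S.Bridgeless) (hL : S.Linear)
    (b₁ : S.Bld pt R c₁ rm₁ σ₁ G₁ y₁) (b₂ : S.Bld pt R c₂ rm₂ σ₂ G₂ y₂)
    (hst : S.Step c₁ c₂) (hd : Disjoint rm₁ rm₂)
    (huniq : ∀ a ∈ S.bd rm₁, (S.g a).1 ∈ rm₂ → a = c₁)
    (hG₁ : G₁.card ≤ 2) (hG₂ : G₂.card ≤ 2) :
    σ₁ = unrot c₁ ∧ σ₂ = c₂ ∧
      ∃ T ⊆ S.F, ∃ e₁ e₂, (e₁ = σ₁ ∨ e₁ = S.g σ₁) ∧ (e₂ = σ₂ ∨ e₂ = S.g σ₂) ∧
        S.bd T = {e₁, e₂} ∧ e₁ ≠ e₂ := by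
  have he : S.Eqv c₁ c₂ := Relation.EqvGen.rel _ _ hst
  have hgc : S.g c₁ = unrot c₂ := by rw [hst.2, unrot_rot]
  have hgc1 : (S.g c₁).1 = c₂.1 := by rw [hgc]; rfl
  have hnl := not_linked_adj hS hB hL b₁ b₂ hst hd huniq
  have h1 : σ₁ ≠ c₁ := by
    intro h
    refine adj_false hS hB b₁ b₂ he hd (fun a ha h' => (huniq a ha h').trans h.symm) ?_ hG₂ hnl
    rw [h, hgc]; exact b₂.uc_mem
  have h2 : σ₂ ≠ unrot c₂ := by
    intro h
    have hnl' : ∃ Y ⊆ S.F \ (rm₂ ∪ rm₁), Y.Nonempty ∧ Y ≠ S.F \ (rm₂ ∪ rm₁) ∧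
        S.Closed (S.F \ (rm₂ ∪ rm₁)) Y ∧
        ∀ p q, S.Eqv p q → ¬ S.Eqv p c₂ → p.1 ∈ Y → q.1 ∈ S.F \ (rm₂ ∪ rm₁) → q.1 ∈ Y := by
      obtain ⟨Y, hY1, hY2, hY3, hY4, hY5⟩ := hnl
      rw [union_comm rm₂ rm₁]
      exact ⟨Y, hY1, hY2, hY3, hY4, fun p q hpq hp => hY5 p q hpq fun h3 => hp (h3.trans he)⟩
    refine adj_false hS hB b₂ b₁ he.symm hd.symm (fun a ha h' => ?_) ?_ hG₁ hnl'
    · rw [mem_bd] at ha
      have h3 := huniq (S.g a) (by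
        rw [mem_bd, S.invol]
        exact ⟨ne_comm.1 ha.1, h', fun h3 => disjoint_left.1 hd h3 ha.2.1⟩)
        (by rw [S.invol]; exact ha.2.1)
      rw [h, ← hgc, ← h3, S.invol]
    · rw [h, ← hgc, S.invol]; exact b₁.c_mem
  have h3 : σ₁ = unrot c₁ ∧ c₁ ∈ G₁ := by
    rcases b₁.vs with h | h
    · exact absurd h.1 h1
    · exact h
  have h4 : σ₂ = c₂ ∧ unrot c₂ ∈ G₂ := by
    rcases b₂.vs with h | h
    · exact h
    · exact absurd h.1 h2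
  refine ⟨h3.1, h4.1, adj_cut hS hB b₁ b₂ hd (κ := c₁) huniq h3.2 (by rw [hgc]; exact h4.2) ?_ hnl⟩
  -- the other ends of the common side
  have h5 : S.Eqv y₁ (rot c₁) := by
    rcases b₁.link c₁ h3.2 with h | h
    · exact absurd h b₁.ny
    · exact h
  have h6 : S.Eqv y₂ (unrot c₂) := by
    rcases b₂.link (unrot c₂) h4.2 with h | h
    · exact h
    · rw [rot_unrot] at h; exact absurd h b₂.ny
  have h7 : S.Eqv (rot c₁) (unrot c₂) := by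
    rw [← hgc]; exact Eqv.of_glued' hst.1
  exact h5.trans (h7.trans h6.symm)

end

end Obj

end AG
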