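import Pool.Agent.AG.Red.Basic

/-!
# Project AG, block 5 (pair rule): solutions of linked parts

`rel` is an equivalence relation of corners which contains the equivalence `(S.keep X).Eqv` of the
part `X` considered and whose classes are points; hits are counted with respect to `rel`.  If `X`
is connected by glued sides and by `rel` (pinches), then `X` is solved as if it were connected
(`good_of_linked`).
-/

set_option linter.unusedSectionVars false
set_option linter.unusedSimpArgs false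

namespace AG

open Finset

variable {I : Type} [DecidableEq I]

namespace Obj

/-- no glued side leads from `Y` to `X \ Y` -/
def Closed (S : Obj I) (X Y : Finset I) : Prop :=
  ∀ a, S.g a ≠ a → a.1 ∈ Y → (S.g a).1 ∈ X → (S.g a).1 ∈ Y

theorem Closed.sdiff {S : Obj I} {X Y : Finset I} (h : S.Closed X Y) :
    S.Closed X (X \ Y) := by
  intro a ha h1 h2
  rw [mem_sdiff] at h1 ⊢
  refine ⟨h2, fun h3 => h1.2 ?_⟩
  have := h (S.g a) (g_ne_iff.2 ha) h3 (by rw [S.invol]; exact h1.1)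
  rwa [S.invol] at this

/-- the connected component of `t` in `X` -/
theorem exists_comp (S : Obj I) {X : Finset I} (hX : X ⊆ S.F) {t : I} (ht : t ∈ X) :
    ∃ Z ⊆ X, t ∈ Z ∧ S.Closed X Z ∧ (S.keep Z).Conn ∧
      ∀ Z' ⊆ X, t ∈ Z' → S.Closed X Z' → Z ⊆ Z' := by
  classical
  let 𝒵 : Finset (Finset I) := X.powerset.filter fun Z => t ∈ Z ∧ S.Closed X Z
  have hne : 𝒵.Nonempty := ⟨X, by
    simp only [𝒵, mem_filter, mem_powerset]
    exact ⟨subset_rfl, ht, fun a _ _ h => h⟩⟩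
  obtain ⟨Z, hZ, hmin⟩ := exists_min_image 𝒵 Finset.card hne
  simp only [𝒵, mem_filter, mem_powerset] at hZ hmin
  obtain ⟨hZX, htZ, hZc⟩ := hZ
  have key : ∀ Z' ⊆ X, t ∈ Z' → S.Closed X Z' → Z ⊆ Z' := by
    intro Z' h1 h2 h3
    have h4 : S.Closed X (Z ∩ Z') := by
      intro a ha h5 h6
      rw [mem_inter] at h5 ⊢
      exact ⟨hZc a ha h5.1 h6, h3 a ha h5.2 h6⟩
    have h5 := hmin (Z ∩ Z') ⟨inter_subset_left.trans hZX, mem_inter.2 ⟨htZ, h2⟩, h4⟩
    have h6 : Z ∩ Z' = Z := eq_of_subset_of_card_le inter_subset_left h5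
    rw [← h6]; exact inter_subset_right
  refine ⟨Z, hZX, htZ, hZc, ⟨?_, ?_⟩, key⟩
  · rw [keep_F S (hZX.trans hX)]; exact ⟨t, htZ⟩
  · rw [keep_F S (hZX.trans hX)]
    intro Y hY hYne hYZ
    by_contra hemp
    rw [not_nonempty_iff_eq_empty] at hemp
    have h1 : S.Closed X Y := by
      intro a ha h2 h3
      by_contra h4
      have h5 : (S.g a).1 ∈ Z := hZc a ha (hY h2) h3
      have h6 : a ∈ (S.keep Z).bd Y := by
        rw [mem_bd, keep_g, if_pos ⟨hY h2, h5⟩]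
        exact ⟨ha, h2, h4⟩
      rw [hemp] at h6
      exact notMem_empty _ h6
    have h2 : S.Closed X (Z \ Y) := by
      intro a ha h3 h4
      rw [mem_sdiff] at h3 ⊢
      refine ⟨hZc a ha h3.1 h4, fun h5 => h3.2 ?_⟩
      have := h1 (S.g a) (g_ne_iff.2 ha) h5 (by rw [S.invol]; exact hZX h3.1)
      rwa [S.invol] at this
    by_cases h3 : t ∈ Y
    · exact hYZ (subset_antisymm hY (key Y (hY.trans hZX) h3 h1))
    · have h4 := key (Z \ Y) (sdiff_subset.trans hZX) (mem_sdiff.2 ⟨htZ, h3⟩) h2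
      obtain ⟨s, hs⟩ := hYne
      exact (mem_sdiff.1 (h4 (hY hs))).2 hs

/-- `C` solves the part `X` of `S`, with hits counted with respect to `rel` -/
structure GSol (S : Obj I) (pt : Sd I → Pt) (R : Set Pt) (rel : Sd I → Sd I → Prop)
    (X : Finset I) (W C : Finset (Sd I)) : Prop where
  sub : ∀ c ∈ C, c.1 ∈ X
  forced : ∀ w ∈ W, ∃ d ∈ C, rel d w
  ear : ∀ a ∈ S.E, a.1 ∈ X → (∃ d ∈ C, rel d a) ∨ ∃ d ∈ C, rel d (rot a)
  dom : ∀ t ∈ X, (S.keep X).Noncore t → ∃ i, ∃ d ∈ C, rel d (t, i)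
  cov : ∀ t ∈ X, Cov pt R C t

/-- the part `X` has a solution of the size of a solution of a connected object -/
def Good (S : Obj I) (pt : Sd I → Pt) (R : Set Pt) (rel : Sd I → Sd I → Prop) (X : Finset I)
    (W : Finset (Sd I)) : Prop :=
  ∃ C, S.GSol pt R rel X W C ∧ 6 * C.card ≤ (S.keep X).N2 W.card

theorem good_of_P {S : Obj I} {pt : Sd I → Pt} {R : Set Pt} {rel : Sd I → Sd I → Prop}
    {X : Finset I} (hX : X ⊆ S.F) {W : Finset (Sd I)} (h : P (S.keep X) pt R W)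
    (hrel : ∀ a b, (S.keep X).Eqv a b → rel a b) : S.Good pt R rel X W := by
  obtain ⟨C, hC, h1⟩ := h
  refine ⟨C, ⟨?_, ?_, ?_, ?_, ?_⟩, h1⟩
  · intro c hc
    have := hC.sub hc
    rwa [mem_sides, keep_F S hX] at this
  · intro w hw
    obtain ⟨d, hd, h2⟩ := hC.forced w hw
    exact ⟨d, hd, hrel _ _ h2⟩
  · intro a ha haX
    rcases hC.ear a (by rw [keep_E, mem_filter]; exact ⟨ha, haX⟩) with h2 | h2
    · obtain ⟨d, hd, h3⟩ := h2
      exact Or.inl ⟨d, hd, hrel _ _ h3⟩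
    · obtain ⟨d, hd, h3⟩ := h2
      exact Or.inr ⟨d, hd, hrel _ _ h3⟩
  · intro t _ ht
    obtain ⟨i, d, hd, h3⟩ := hC.dom t ht
    exact ⟨i, d, hd, hrel _ _ h3⟩
  · intro t ht
    exact hC.cov t (by rw [keep_F S hX]; exact ht)

theorem Closed.no_edge {S : Obj I} {X Y : Finset I} (h : S.Closed X Y) {a : Sd I}
    (ha : S.g a ≠ a) (h1 : a.1 ∈ X \ Y) : (S.g a).1 ∉ Y := by
  intro h2
  rw [mem_sdiff] at h1
  have := h (S.g a) (g_ne_iff.2 ha) h2 (by rw [S.invol]; exact h1.1)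
  rw [S.invol] at this
  exact h1.2 this

/-- a closed part has the boundary it has in `S`: the count of two complementary closed parts -/
theorem N2_closed_add (S : Obj I) {X Y : Finset I} (hX : X ⊆ S.F) (hY : Y ⊆ X)
    (h : S.Closed X Y) (k l : ℕ) :
    (S.keep Y).N2 k + (S.keep (X \ Y)).N2 l = (S.keep X).N2 (k + l) + 2 := by
  have h1 := card_vis_keep S hX
  have h2 := card_vis_keep S (hY.trans hX)
  have h3 := card_vis_keep S ((sdiff_subset : X \ Y ⊆ X).trans hX)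
  have h4 : (S.bd X).card = (S.bd Y).card + (S.bd (X \ Y)).card := by
    rw [← card_union_of_disjoint]
    · congr 1
      ext a
      simp only [mem_bd, mem_union, mem_sdiff]
      constructor
      · rintro ⟨h5, h6, h7⟩
        by_cases h8 : a.1 ∈ Y
        · exact Or.inl ⟨h5, h8, fun h9 => h7 (hY h9)⟩
        · exact Or.inr ⟨h5, ⟨h6, h8⟩, fun h9 => h7 h9.1⟩
      · rintro (⟨h5, h6, h7⟩ | ⟨h5, h6, h7⟩)
        · exact ⟨h5, hY h6, fun h8 => h7 (h a h5 h6 h8)⟩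
        · refine ⟨h5, h6.1, fun h8 => h7 ⟨h8, ?_⟩⟩
          exact h.no_edge h5 (mem_sdiff.2 h6)
    · rw [disjoint_left]
      intro a ha hb
      exact (mem_sdiff.1 (mem_bd.1 hb).2.1).2 (mem_bd.1 ha).2.1
  have h5 : (S.vis.filter (fun a => a.1 ∈ X)).card
      = (S.vis.filter (fun a => a.1 ∈ Y)).card + (S.vis.filter (fun a => a.1 ∈ X \ Y)).card := by
    rw [← card_union_of_disjoint]
    · congr 1
      ext a
      simp only [mem_filter, mem_union, mem_sdiff]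
      constructor
      · rintro ⟨h5, h6⟩
        by_cases h7 : a.1 ∈ Y
        · exact Or.inl ⟨h5, h7⟩
        · exact Or.inr ⟨h5, h6, h7⟩
      · rintro (⟨h5, h6⟩ | ⟨h5, h6⟩)
        · exact ⟨h5, hY h6⟩
        · exact ⟨h5, h6.1⟩
    · rw [disjoint_left]
      intro a ha hb
      exact (mem_sdiff.1 (mem_filter.1 hb).2).2 (mem_filter.1 ha).2
  have h6 : (S.E.filter (fun a => a.1 ∈ X)).card
      = (S.E.filter (fun a => a.1 ∈ Y)).card + (S.E.filter (fun a => a.1 ∈ X \ Y)).card := by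
    rw [← card_union_of_disjoint]
    · congr 1
      ext a
      simp only [mem_filter, mem_union, mem_sdiff]
      constructor
      · rintro ⟨h5, h6⟩
        by_cases h7 : a.1 ∈ Y
        · exact Or.inl ⟨h5, h7⟩
        · exact Or.inr ⟨h5, h6, h7⟩
      · rintro (⟨h5, h6⟩ | ⟨h5, h6⟩)
        · exact ⟨h5, hY h6⟩
        · exact ⟨h5, h6.1⟩
    · rw [disjoint_left]
      intro a ha hb
      exact (mem_sdiff.1 (mem_filter.1 hb).2).2 (mem_filter.1 ha).2
  have h7 : X.card = Y.card + (X \ Y).card := by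
    rw [card_sdiff_of_subset hY]; have := card_le_card hY; omega
  simp only [N2, keep_F S hX, keep_F S (hY.trans hX), keep_F S (sdiff_subset.trans hX), keep_E]
  omega

theorem keep_mono (S : Obj I) {X Y : Finset I} (h : Y ⊆ X) : (S.keep Y).Le (S.keep X) := by
  refine ⟨inter_subset_inter_left h, fun a => ?_⟩
  rw [keep_g, keep_g]
  by_cases h1 : a.1 ∈ Y ∧ (S.g a).1 ∈ Y
  · rw [if_pos h1, if_pos ⟨h h1.1, h h1.2⟩]; exact Or.inl rfl
  · rw [if_neg h1]; exact Or.inr rfl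

/-- union of the solutions of two complementary parts -/
theorem GSol.union {S : Obj I} {pt : Sd I → Pt} {R : Set Pt} {rel : Sd I → Sd I → Prop}
    {X Y : Finset I} (hX : X ⊆ S.F) (hY : Y ⊆ X) {W₁ W₂ C₁ C₂ : Finset (Sd I)}
    (h₁ : S.GSol pt R rel Y W₁ C₁) (h₂ : S.GSol pt R rel (X \ Y) W₂ C₂) :
    S.GSol pt R rel X (W₁ ∪ W₂) (C₁ ∪ C₂) where
  sub c hc := by
    rcases mem_union.1 hc with h | h
    · exact hY (h₁.sub c h)
    · exact sdiff_subset (h₂.sub c h)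
  forced w hw := by
    rcases mem_union.1 hw with h | h
    · obtain ⟨d, hd, h3⟩ := h₁.forced w h
      exact ⟨d, mem_union_left _ hd, h3⟩
    · obtain ⟨d, hd, h3⟩ := h₂.forced w h
      exact ⟨d, mem_union_right _ hd, h3⟩
  ear a ha haX := by
    by_cases hY' : a.1 ∈ Y
    · rcases h₁.ear a ha hY' with ⟨d, hd, h3⟩ | ⟨d, hd, h3⟩
      · exact Or.inl ⟨d, mem_union_left _ hd, h3⟩
      · exact Or.inr ⟨d, mem_union_left _ hd, h3⟩
    · rcases h₂.ear a ha (mem_sdiff.2 ⟨haX, hY'⟩) with ⟨d, hd, h3⟩ | ⟨d, hd, h3⟩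
      · exact Or.inl ⟨d, mem_union_right _ hd, h3⟩
      · exact Or.inr ⟨d, mem_union_right _ hd, h3⟩
  dom t ht htn := by
    by_cases hY' : t ∈ Y
    · obtain ⟨i, d, hd, h3⟩ := h₁.dom t hY' (htn.mono (keep_mono S hY)
        (by rw [keep_F S (hY.trans hX)]; exact hY'))
      exact ⟨i, d, mem_union_left _ hd, h3⟩
    · have h4 : t ∈ X \ Y := mem_sdiff.2 ⟨ht, hY'⟩
      obtain ⟨i, d, hd, h3⟩ := h₂.dom t h4 (htn.mono (keep_mono S sdiff_subset)
        (by rw [keep_F S (sdiff_subset.trans hX)]; exact h4))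
      exact ⟨i, d, mem_union_right _ hd, h3⟩
  cov t ht := by
    by_cases hY' : t ∈ Y
    · exact Cov.subset (h₁.cov t hY') subset_union_left
    · exact Cov.subset (h₂.cov t (mem_sdiff.2 ⟨ht, hY'⟩)) subset_union_right

/-- count once -/
theorem GSol.erase {S : Obj I} {pt : Sd I → Pt} {R : Set Pt} {rel : Sd I → Sd I → Prop}
    (hrel : Equivalence rel) (hpt : ∀ a b, rel a b → pt a = pt b)
    {X : Finset I} {W C : Finset (Sd I)} (h : S.GSol pt R rel X W C) {d d' : Sd I}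
    (hd' : d' ∈ C) (hne : d ≠ d') (he : rel d d') : S.GSol pt R rel X W (C.erase d) := by
  have key : ∀ c, (∃ e ∈ C, rel e c) → ∃ e ∈ C.erase d, rel e c := by
    rintro c ⟨e, he1, he2⟩
    by_cases hed : e = d
    · subst hed
      exact ⟨d', mem_erase.2 ⟨hne.symm, hd'⟩, hrel.trans (hrel.symm he) he2⟩
    · exact ⟨e, mem_erase.2 ⟨hed, he1⟩, he2⟩
  refine ⟨fun c hc => h.sub c (mem_of_mem_erase hc), fun w hw => key _ (h.forced w hw),
    fun a ha haX => (h.ear a ha haX).imp (key _) (key _), ?_, ?_⟩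
  · intro t ht htn
    obtain ⟨i, h1⟩ := h.dom t ht htn
    exact ⟨i, key _ h1⟩
  · intro t ht p hp
    obtain ⟨c, hc, h1⟩ := h.cov t ht p hp
    by_cases hcd : c = d
    · subst hcd
      exact ⟨d', mem_erase.2 ⟨hne.symm, hd'⟩, by rw [← hpt _ _ he]; exact h1⟩
    · exact ⟨c, mem_erase.2 ⟨hcd, hc⟩, h1⟩

theorem GSol.weaken {S : Obj I} {pt : Sd I → Pt} {R : Set Pt} {rel : Sd I → Sd I → Prop}
    {X : Finset I} {W W' C : Finset (Sd I)} (h : S.GSol pt R rel X W C) (hW : W' ⊆ W) :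
    S.GSol pt R rel X W' C :=
  ⟨h.sub, fun w hw => h.forced w (hW hw), h.ear, h.dom, h.cov⟩

/-- two closed parts joined by a pinch -/
theorem good_join {S : Obj I} {pt : Sd I → Pt} {R : Set Pt} {rel : Sd I → Sd I → Prop}
    (hrel : Equivalence rel) (hpt : ∀ a b, rel a b → pt a = pt b)
    {X Y : Finset I} (hX : X ⊆ S.F) (hY : Y ⊆ X) (hc : S.Closed X Y)
    (h₁ : ∀ W : Finset (Sd I), (∀ w ∈ W, w.1 ∈ Y) → S.Good pt R rel Y W)
    (h₂ : ∀ W : Finset (Sd I), (∀ w ∈ W, w.1 ∈ X \ Y) → S.Good pt R rel (X \ Y) W)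
    {p q : Sd I} (hp : p.1 ∈ Y) (hq : q.1 ∈ X \ Y) (hpq : rel p q)
    {W : Finset (Sd I)} (hW : ∀ w ∈ W, w.1 ∈ X) : S.Good pt R rel X W := by
  let W₁ := W.filter fun w => w.1 ∈ Y
  let W₂ := W.filter fun w => ¬ w.1 ∈ Y
  have hW12 : W₁ ∪ W₂ = W := filter_union_filter_not_eq _ _
  have hcard : W₁.card + W₂.card = W.card := card_filter_add_card_filter_not _
  have hW₁ : ∀ w ∈ W₁, w.1 ∈ Y := fun w hw => (mem_filter.1 hw).2
  have hW₂ : ∀ w ∈ W₂, w.1 ∈ X \ Y := fun w hw =>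
    mem_sdiff.2 ⟨hW w (mem_filter.1 hw).1, (mem_filter.1 hw).2⟩
  have hN := N2_closed_add S hX hY hc W₁.card W₂.card
  rw [hcard] at hN
  obtain ⟨C₁, hC₁, hn₁⟩ := h₁ W₁ hW₁
  obtain ⟨C₂, hC₂, hn₂⟩ := h₂ W₂ hW₂
  by_cases hle : 6 * (C₁.card + C₂.card) ≤ (S.keep X).N2 W.card
  · refine ⟨C₁ ∪ C₂, ?_, ?_⟩
    · have := GSol.union hX hY hC₁ hC₂
      rwa [hW12] at this
    · have := card_union_le C₁ C₂
      omega
  · obtain ⟨D₁, hD₁, hm₁⟩ := h₁ (insert p W₁) (by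
      intro w hw
      rcases mem_insert.1 hw with h | h
      · rw [h]; exact hp
      · exact hW₁ w h)
    obtain ⟨D₂, hD₂, hm₂⟩ := h₂ (insert q W₂) (by
      intro w hw
      rcases mem_insert.1 hw with h | h
      · rw [h]; exact hq
      · exact hW₂ w h)
    have hk₁ : (insert p W₁).card ≤ W₁.card + 1 := card_insert_le _ _
    have hk₂ : (insert q W₂).card ≤ W₂.card + 1 := card_insert_le _ _
    have hm₁' : 6 * D₁.card ≤ (S.keep Y).N2 W₁.card + 4 := by
      refine hm₁.trans ?_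
      simp only [N2]; omega
    have hm₂' : 6 * D₂.card ≤ (S.keep (X \ Y)).N2 W₂.card + 4 := by
      refine hm₂.trans ?_
      simp only [N2]; omega
    obtain ⟨d₁, hd₁, he₁⟩ := hD₁.forced p (mem_insert_self _ _)
    obtain ⟨d₂, hd₂, he₂⟩ := hD₂.forced q (mem_insert_self _ _)
    have hne : d₂ ≠ d₁ := by
      rintro rfl
      exact (mem_sdiff.1 (hD₂.sub _ hd₂)).2 (hD₁.sub _ hd₁)
    have he : rel d₂ d₁ := hrel.trans he₂ (hrel.trans (hrel.symm hpq) (hrel.symm he₁))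
    have hU := (GSol.union hX hY hD₁ hD₂).weaken
      (show W ⊆ insert p W₁ ∪ insert q W₂ by
        rw [← hW12]
        exact union_subset_union (subset_insert _ _) (subset_insert _ _))
    refine ⟨(D₁ ∪ D₂).erase d₂, GSol.erase hrel hpt hU (mem_union_left _ hd₁) hne he, ?_⟩
    have h1 := card_union_le D₁ D₂
    have h2 := card_erase_of_mem (mem_union_right D₁ hd₂)
    have h3 : 0 < D₂.card := card_pos.2 ⟨d₂, hd₂⟩
    omega

/-- LINK LEMMA: a part which is connected by glued sides and pinches is good -/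
theorem good_of_linked {S : Obj I} {pt : Sd I → Pt} {R : Set Pt} {rel : Sd I → Sd I → Prop}
    (hrel : Equivalence rel) (hpt : ∀ a b, rel a b → pt a = pt b)
    {X : Finset I} (hX : X ⊆ S.F) (hne : X.Nonempty)
    (hE : ∀ a b, (S.keep X).Eqv a b → rel a b)
    (hP : ∀ Z ⊆ X, (S.keep Z).Conn → ∀ W ⊆ (S.keep Z).sides, P (S.keep Z) pt R W)
    (hlink : ∀ Y ⊆ X, Y.Nonempty → Y ≠ X → S.Closed X Y →
      ∃ p q, rel p q ∧ p.1 ∈ Y ∧ q.1 ∈ X \ Y)
    {W : Finset (Sd I)} (hW : ∀ w ∈ W, w.1 ∈ X) : S.Good pt R rel X W := by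
  classical
  have hconn : ∀ Z ⊆ X, (S.keep Z).Conn → ∀ W : Finset (Sd I), (∀ w ∈ W, w.1 ∈ Z) →
      S.Good pt R rel Z W := by
    intro Z hZ hc W hW
    refine good_of_P (hZ.trans hX) (hP Z hZ hc W ?_) ?_
    · intro w hw
      rw [mem_sides, keep_F S (hZ.trans hX)]
      exact hW w hw
    · intro a b hab
      exact hE a b (hab.mono (keep_mono S hZ))
  let 𝒴 : Finset (Finset I) := X.powerset.filter fun Y => Y.Nonempty ∧ S.Closed X Y ∧
    ∀ W : Finset (Sd I), (∀ w ∈ W, w.1 ∈ Y) → S.Good pt R rel Y W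
  have h𝒴 : 𝒴.Nonempty := by
    obtain ⟨t, ht⟩ := hne
    obtain ⟨Z, hZ, h1, h2, h3, _⟩ := exists_comp S hX ht
    refine ⟨Z, ?_⟩
    simp only [𝒴, mem_filter, mem_powerset]
    exact ⟨hZ, ⟨t, h1⟩, h2, hconn Z hZ h3⟩
  obtain ⟨Y, hY, hmax⟩ := exists_max_image 𝒴 Finset.card h𝒴
  simp only [𝒴, mem_filter, mem_powerset] at hY hmax
  obtain ⟨hYX, hYne, hYc, hYg⟩ := hY
  by_cases hYeq : Y = X
  · subst hYeq; exact hYg W hW
  · exfalso
    obtain ⟨p, q, hpq, hp, hq⟩ := hlink Y hYX hYne hYeq hYc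
    obtain ⟨Z, hZ, h1, h2, h3, h4⟩ := exists_comp S hX (mem_sdiff.1 hq).1
    have h5 : Z ⊆ X \ Y := h4 _ sdiff_subset hq hYc.sdiff
    have h6 : S.Closed X (Y ∪ Z) := by
      intro a ha h7 h8
      rcases mem_union.1 h7 with h9 | h9
      · exact mem_union_left _ (hYc a ha h9 h8)
      · exact mem_union_right _ (h2 a ha h9 h8)
    have h7 : (Y ∪ Z) \ Y = Z := by
      rw [union_sdiff_left]
      exact sdiff_eq_self_of_disjoint
        (disjoint_left.2 fun s hs hs' => (mem_sdiff.1 (h5 hs)).2 hs')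
    have h8 : Y ∪ Z ⊆ X := union_subset hYX hZ
    have h9 : S.Closed (Y ∪ Z) Y := fun a ha h10 h11 => hYc a ha h10 (h8 h11)
    have h10 := hmax (Y ∪ Z) ⟨h8, hYne.mono subset_union_left, h6, fun W' hW' =>
      good_join hrel hpt (h8.trans hX) subset_union_left h9 hYg
        (by rw [h7]; exact hconn Z hZ h3) hp (by rw [h7]; exact h1) hpq hW'⟩
    have h11 : (Y ∪ Z).card = Y.card + Z.card := card_union_of_disjoint
      (disjoint_left.2 fun s hs hs' => (mem_sdiff.1 (h5 hs')).2 hs)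
    have h12 : 0 < Z.card := card_pos.2 ⟨_, h1⟩
    omega

end Obj

end AG
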