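import Pool.Agent.AG.Pair.Cutting
import Pool.Agent.AG.Red.Coin
import Pool.Agent.AG.Red.GeoStub

/-!
# Project AG, block 5 (pair rule): real and virtual blades are abstract blades
-/

set_option linter.unusedSectionVars false
set_option linter.unusedSimpArgs false

namespace AG

open Finset

variable {I : Type} [DecidableEq I]

namespace Obj

section

variable {S : Obj I} {pt : Sd I → Pt} {R : Set Pt}

/-- the three sides of a triangle, as a finite set -/
theorem filter_fst_eq (T : Finset (Sd I)) (c : Sd I) :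
    T.filter (fun a => a.1 ∈ ({c.1} : Finset I))
      = T.filter (fun a => a = c ∨ a = rot c ∨ a = unrot c) := by
  refine filter_congr fun a _ => ?_
  rw [mem_singleton]
  constructor
  · intro h; exact eq_of_fst_eq h
  · rintro (h | h | h) <;> rw [h] <;> rfl

theorem rot_ne_unrot (a : Sd I) : rot a ≠ unrot a := (unrot_ne_rot a).symm

/-- REAL BLADES: the stub can be chosen -/
theorem bld_real (hS : Cex S pt R) {c : Sd I} (h : S.Blade c) {σ τ : Sd I}
    (hστ : (σ = c ∧ τ = unrot c) ∨ (σ = unrot c ∧ τ = c)) :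
    ∃ y, S.Bld pt R c {c.1} σ {τ} y := by
  have hG : Geo S pt := hS.geo
  obtain ⟨h1, h2, h3, h4⟩ := h
  have hcF : c.1 ∈ S.F := S.memF c h1
  have hστ' : ({σ, τ} : Finset (Sd I)) = {c, unrot c} := by
    rcases hστ with ⟨e1, e2⟩ | ⟨e1, e2⟩
    · rw [e1, e2]
    · rw [e1, e2, pair_comm]
  have hne : σ ≠ τ := by
    rcases hστ with ⟨e1, e2⟩ | ⟨e1, e2⟩
    · rw [e1, e2]; exact (unrot_ne c).symm
    · rw [e1, e2]; exact unrot_ne c
  have hbd : S.bd {c.1} = {c, unrot c} := by
    ext a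
    rw [mem_bd, mem_singleton, mem_singleton, mem_insert, mem_singleton]
    constructor
    · rintro ⟨h5, h6, _⟩
      rcases eq_of_fst_eq h6 with h7 | h7 | h7
      · exact Or.inl h7
      · rw [h7] at h5; exact absurd h3 h5
      · exact Or.inr h7
    · rintro (h5 | h5)
      · rw [h5]; exact ⟨h1, rfl, S.ne c h1⟩
      · rw [h5]; exact ⟨h2, rfl, S.ne _ h2⟩
  have hvis : (S.vis.filter (fun a => a.1 ∈ ({c.1} : Finset I))) = {rot c} := by
    ext a
    rw [filter_fst_eq, mem_filter, mem_vis, mem_singleton]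
    constructor
    · rintro ⟨⟨h5, h6⟩, h7 | h7 | h7⟩
      · rw [h7] at h6; exact absurd h6 h1
      · exact h7
      · rw [h7] at h6; exact absurd h6 h2
    · intro h5
      rw [h5]
      exact ⟨⟨hcF, h3⟩, Or.inr (Or.inl rfl)⟩
  -- the visit of the other end of `τ`
  obtain ⟨y, hy1, hy2⟩ : ∃ y, ¬ S.Eqv y c ∧ (S.Eqv y τ ∨ S.Eqv y (rot τ)) := by
    rcases hστ with ⟨_, e2⟩ | ⟨_, e2⟩
    · refine ⟨unrot c, fun he => ?_, Or.inl (by rw [e2]; exact Eqv.refl _ _)⟩
      exact hG.pt_ne_unrot hcF (hG.pt_eqv he).symm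
    · refine ⟨rot c, fun he => ?_, Or.inr (by rw [e2]; exact Eqv.refl _ _)⟩
      exact hG.pt_ne_rot hcF (hG.pt_eqv he).symm
  refine ⟨y, ?_⟩
  constructor
  · exact singleton_subset_iff.2 hcF
  · exact mem_singleton_self _
  · rw [hbd, ← hστ']
  · rw [mem_singleton]; exact hne
  · rcases hστ with ⟨e1, e2⟩ | ⟨e1, e2⟩
    · exact Or.inl ⟨e1, mem_singleton.2 e2.symm⟩
    · exact Or.inr ⟨e1, mem_singleton.2 e2.symm⟩
  · rw [hvis, card_singleton, card_singleton, card_singleton]
  · intro a ha h5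
    rcases eq_of_fst_eq (mem_singleton.1 h5) with h6 | h6 | h6
    · rw [h6] at ha; exact h1 (S.earFree _ ha)
    · rw [h6] at ha; exact h4 ha
    · rw [h6] at ha; exact h2 (S.earFree _ ha)
  · intro a ha he
    exact hG.eq_of_fst hcF (mem_singleton.1 ha) (hG.pt_eqv he)
  · exact hy1
  · intro a ha
    rw [mem_singleton.1 ha]; exact hy2
  · intro C hC _ t ht
    rw [mem_singleton.1 ht]
    exact hG.cov_of_hit' hcF (hS.sub _ hcF) hC

/-- a triangle with an unglued side, one of whose other sides leads to a removed triangle, is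
noncore after the removal -/
theorem noncore_of {Z : Finset I} (hZ : Z ⊆ S.F) {d : Sd I} (hdZ : d.1 ∈ Z)
    (hd : (S.g d).1 ∉ Z) (hnf : ¬ S.Face d.1) (hdF : d.1 ∈ S.F) : (S.keep Z).Noncore d.1 := by
  refine ⟨by rw [keep_F S hZ]; exact hdZ, fun i hi => ?_⟩
  refine ⟨{d.1}, ?_, ?_⟩
  · rw [keep_F S hZ]; exact singleton_subset_iff.2 hdZ
  · -- some side of `d.1` is not glued in `S`
    have hex : ∃ j, S.g (d.1, j) = (d.1, j) := by
      by_contra hcon
      exact hnf ⟨hdF, fun j hj => hcon ⟨j, hj⟩⟩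
    obtain ⟨j, hj⟩ := hex
    have hd1 : (S.keep Z).g d = d := keep_unglued hd
    have hj1 : (S.keep Z).g (d.1, j) = (d.1, j) := by
      rcases (keep_le S Z).g (d.1, j) with h | h
      · rw [h, hj]
      · exact h
    by_cases hdj : d = (d.1, j)
    · -- impossible: `d` is glued in `S`
      exfalso
      rw [← hdj] at hj
      rw [hj] at hd
      exact hd hdZ
    ext a
    simp only [mem_bd, mem_singleton]
    constructor
    · rintro ⟨h5, h6, _⟩
      -- `a`, `d`, `(d.1,j)`, `(d.1,i)` are sides of one triangle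
      have ha1 : a ≠ d := fun h => by rw [h] at h5; exact h5 hd1
      have ha2 : a ≠ (d.1, j) := fun h => by rw [h] at h5; exact h5 hj1
      have hi1 : (d.1, i) ≠ d := fun h => by rw [h] at hi; exact hi hd1
      have hi2 : (d.1, i) ≠ ((d.1, j) : Sd I) := fun h => by rw [h] at hi; exact hi hj1
      rcases eq_of_fst_eq (a := d) (b := (d.1, j)) rfl with e | e | e
      · exact absurd e.symm hdj
      · rcases eq_of_fst_eq h6 with e1 | e1 | e1
        · exact absurd e1 ha1
        · exact absurd (e1.trans e.symm) ha2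
        · rcases eq_of_fst_eq (a := d) (b := (d.1, i)) rfl with e2 | e2 | e2
          · exact absurd e2 hi1
          · exact absurd (e2.trans e.symm) hi2
          · rw [e1, ← e2]
      · rcases eq_of_fst_eq h6 with e1 | e1 | e1
        · exact absurd e1 ha1
        · rcases eq_of_fst_eq (a := d) (b := (d.1, i)) rfl with e2 | e2 | e2
          · exact absurd e2 hi1
          · rw [e1, ← e2]
          · exact absurd (e2.trans e.symm) hi2
        · exact absurd (e1.trans e.symm) ha2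
    · intro h
      rw [h]
      exact ⟨hi, rfl, (S.keep Z).ne _ hi⟩

/-- the common part of the two types of virtual blades: `a` = side of `t` towards `s`, `τ` the
other glued side of `t`, `β` its base; `σ` the stub, `ρ` the other side of the corner `w` -/
theorem bld_virt (hS : Cex S pt R) {w a τ β σ ρ y : Sd I} (ha : a = S.g (rot w))
    (hg : S.g (rot w) ≠ rot w) (hf : S.Face w.1)
    (hτ1 : τ.1 = a.1) (hτ : S.g τ ≠ τ) (hβ1 : β.1 = a.1) (hβ : S.g β = β) (hβE : β ∉ S.E)
    (haτ : a ≠ τ) (htri : ∀ b, b.1 = a.1 → b = a ∨ b = τ ∨ b = β)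
    (hσρ : (σ = w ∧ ρ = unrot w) ∨ (σ = unrot w ∧ ρ = w))
    (hy : ¬ S.Eqv y w) (hyρ : S.Eqv y ρ ∨ S.Eqv y (rot ρ)) (hyτ : S.Eqv y τ ∨ S.Eqv y (rot τ))
    (hcov : ∀ C : Finset (Sd I), S.Hit C w →
      (¬ S.Face (S.g τ).1 → ∃ i, S.Hit C ((S.g τ).1, i)) → Cov pt R C a.1) :
    S.Bld pt R w {w.1, a.1} σ {ρ, τ} y := by
  have hG : Geo S pt := hS.geo
  have hag : S.g a = rot w := by rw [ha, S.invol]
  have haF : a.1 ∈ S.F := by rw [ha]; exact g_memF hg
  have hwF : w.1 ∈ S.F := hf.1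
  have hw : S.g w ≠ w := hf.2 w.2
  have huw : S.g (unrot w) ≠ unrot w := Face.glued hf rfl
  have hagl : S.g a ≠ a := by rw [ha]; exact g_ne_iff.2 hg
  have hwa : w.1 ≠ a.1 := by
    intro h
    exact S.ne a hagl (by rw [hag, rot_fst, h])
  -- the glued sides of `w.1` other than `rot w` do not lead to `a.1`
  have hnw : ∀ b, b.1 = w.1 → S.g b ≠ b → (S.g b).1 = a.1 → b = rot w := by
    intro b hb1 hb2 hb3
    rcases eq_of_fst_eq hb1 with h | h | h
    · exfalso
      have h5 := hG.mat b hb2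
      rw [h] at h5 hb3
      exact hG.pt_ne_of_across hg (d := rot (S.g w)) (by rw [rot_fst, hb3, ha]) h5
    · exact h
    · exfalso
      have h5 := hG.mat' hb2
      rw [h, rot_unrot] at h5
      rw [h] at hb3
      exact hG.pt_ne_of_across hg (d := S.g (unrot w)) (by rw [hb3, ha]) h5
  have hτw : (S.g τ).1 ≠ w.1 := by
    intro h
    have h5 := hnw (S.g τ) h (g_ne_iff.2 hτ) (by rw [S.invol]; exact hτ1)
    have h6 : τ = S.g (rot w) := by rw [← h5, S.invol]
    exact haτ (ha.trans h6.symm)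
  have hw' : (S.g w).1 ≠ a.1 := fun h => (rot_ne w) (hnw w rfl hw h).symm
  have huw' : (S.g (unrot w)).1 ≠ a.1 := fun h => (unrot_ne_rot w) (hnw _ rfl huw h)
  have hσρ' : ({σ, ρ} : Finset (Sd I)) = {w, unrot w} := by
    rcases hσρ with ⟨e1, e2⟩ | ⟨e1, e2⟩
    · rw [e1, e2]
    · rw [e1, e2, pair_comm]
  have hbd : S.bd {w.1, a.1} = insert σ {ρ, τ} := by
    have : (insert σ {ρ, τ} : Finset (Sd I)) = {w, unrot w} ∪ {τ} := by
      rw [← hσρ']
      ext b
      simp only [mem_insert, mem_singleton, mem_union]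
      tauto
    rw [this]
    ext b
    simp only [mem_bd, mem_insert, mem_singleton, mem_union, not_or]
    constructor
    · rintro ⟨h5, h6 | h6, h7, h8⟩
      · rcases eq_of_fst_eq h6 with h9 | h9 | h9
        · exact Or.inl (Or.inl h9)
        · rw [h9, ← ha] at h8; exact absurd rfl h8
        · exact Or.inl (Or.inr h9)
      · rcases htri b h6 with h9 | h9 | h9
        · rw [h9, hag, rot_fst] at h7; exact absurd rfl h7
        · exact Or.inr h9
        · rw [h9] at h5; exact absurd hβ h5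
    · rintro ((h5 | h5) | h5)
      · rw [h5]; exact ⟨hw, Or.inl rfl, S.ne w hw, hw'⟩
      · rw [h5]; exact ⟨huw, Or.inl rfl, S.ne _ huw, huw'⟩
      · rw [h5]; exact ⟨hτ, Or.inr hτ1, hτw, by rw [← hτ1]; exact S.ne τ hτ⟩
  have hρ1 : ρ.1 = w.1 := by
    rcases hσρ with ⟨_, e2⟩ | ⟨_, e2⟩ <;> rw [e2] <;> rfl
  have hσ1 : σ.1 = w.1 := by
    rcases hσρ with ⟨e2, _⟩ | ⟨e2, _⟩ <;> rw [e2] <;> rfl
  have hρτ : ρ ≠ τ := fun h => hwa (by rw [← hρ1, h, hτ1])
  have hστ : σ ≠ τ := fun h => hwa (by rw [← hσ1, h, hτ1])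
  have hσρne : σ ≠ ρ := by
    rcases hσρ with ⟨e1, e2⟩ | ⟨e1, e2⟩
    · rw [e1, e2]; exact (unrot_ne w).symm
    · rw [e1, e2]; exact unrot_ne w
  have hvis : (S.vis.filter (fun b => b.1 ∈ ({w.1, a.1} : Finset I))) = {β} := by
    ext b
    rw [mem_filter, mem_vis, mem_insert, mem_singleton, mem_singleton]
    constructor
    · rintro ⟨⟨h5, h6⟩, h7 | h7⟩
      · exfalso
        have h8 : S.g b ≠ b := Face.glued hf h7
        exact h8 h6
      · rcases htri b h7 with h9 | h9 | h9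
        · rw [h9] at h6; exact absurd h6 hagl
        · rw [h9] at h6; exact absurd h6 hτ
        · exact h9
    · intro h5
      rw [h5]
      exact ⟨⟨by rw [hβ1]; exact haF, hβ⟩, Or.inr hβ1⟩
  constructor
  · exact insert_subset hwF (singleton_subset_iff.2 haF)
  · exact mem_insert_self _ _
  · exact hbd
  · rw [mem_insert, mem_singleton]
    rintro (h | h)
    · exact hσρne h
    · exact hστ h
  · rcases hσρ with ⟨e1, e2⟩ | ⟨e1, e2⟩
    · exact Or.inl ⟨e1, by rw [e2]; exact mem_insert_self _ _⟩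
    · exact Or.inr ⟨e1, by rw [e2]; exact mem_insert_self _ _⟩
  · rw [hvis, card_singleton, card_pair hwa, card_pair hρτ]
  · intro b hb h5
    rw [mem_insert, mem_singleton] at h5
    rcases h5 with h5 | h5
    · exact Face.glued hf h5 (S.earFree b hb)
    · rcases htri b h5 with h9 | h9 | h9
      · rw [h9] at hb; exact hagl (S.earFree _ hb)
      · rw [h9] at hb; exact hτ (S.earFree _ hb)
      · rw [h9] at hb; exact hβE hb
  · intro b hb he
    rw [mem_insert, mem_singleton] at hb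
    rcases hb with h5 | h5
    · exact hG.eq_of_fst hwF h5 (hG.pt_eqv he)
    · exact absurd he (hG.not_eqv_of_across hg (by rw [h5, ha]))
  · exact hy
  · intro b hb
    rw [mem_insert, mem_singleton] at hb
    rcases hb with h5 | h5
    · rw [h5]; exact hyρ
    · rw [h5]; exact hyτ
  · intro C hC hN t ht
    rw [mem_insert, mem_singleton] at ht
    rcases ht with h5 | h5
    · rw [h5]
      exact hG.cov_of_hit' hwF (hS.sub _ hwF) hC
    · rw [h5]
      refine hcov C hC fun hnf => ?_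
      refine hN τ (mem_insert_of_mem (mem_singleton_self _)) ?_
      have h6 : (S.g τ).1 ∈ S.F := g_memF hτ
      refine noncore_of sdiff_subset (d := S.g τ) ?_ ?_ hnf h6
      · refine mem_sdiff.2 ⟨h6, ?_⟩
        rw [mem_insert, mem_singleton]
        rintro (h7 | h7)
        · exact hτw h7
        · exact S.ne τ hτ (h7.trans hτ1.symm)
      · rw [S.invol]
        intro h7
        refine (mem_sdiff.1 h7).2 ?_
        rw [hτ1]
        exact mem_insert_of_mem (mem_singleton_self _)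

/-- VIRTUAL BLADES of type A -/
theorem bld_virtA (hS : Cex S pt R) {w : Sd I} (h : S.VirtA pt w) :
    ∃ y, S.Bld pt R w {w.1, (S.g (rot w)).1} w {unrot w, unrot (S.g (rot w))} y := by
  have hG : Geo S pt := hS.geo
  have hg := h.glued
  have hf := h.face
  obtain ⟨hbl, hact, htype⟩ := h
  have hwF : w.1 ∈ S.F := hf.1
  have haF : (S.g (rot w)).1 ∈ S.F := g_memF hg
  have hpy : S.Eqv (unrot w) (S.g (rot w)) := by
    have := Eqv.of_glued' hg
    rwa [rot_rot] at this
  refine ⟨unrot w, bld_virt hS (a := S.g (rot w)) (τ := unrot (S.g (rot w)))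
    (β := rot (S.g (rot w))) (σ := w) (ρ := unrot w) rfl hg hf rfl hbl.2.1 rfl hbl.2.2.1
    hbl.2.2.2 (unrot_ne _).symm ?_ (Or.inl ⟨rfl, rfl⟩) ?_ (Or.inl (Eqv.refl _ _)) ?_ ?_⟩
  · intro b hb
    rcases eq_of_fst_eq hb with h1 | h1 | h1
    · exact Or.inl h1
    · exact Or.inr (Or.inr h1)
    · exact Or.inr (Or.inl h1)
  · intro he
    exact hG.pt_ne_unrot hwF (hG.pt_eqv he).symm
  · right; rw [rot_unrot]; exact hpy
  · intro C hC hN
    have hag : (S.g (S.g (rot w))).1 = w.1 := by rw [S.invol, rot_fst]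
    rcases htype with hU | ⟨hP, hna⟩
    · refine Geo.see_U hG hU (hS.sub _ haF) (by rw [hag]; exact hS.sub _ hwF) ⟨w.2, ?_⟩
      rw [hag]; exact hC
    · have hτ := hbl.2.1
      refine Geo.see_pair hG hP (hS.sub _ haF) (by rw [hag]; exact hS.sub _ hwF)
        (hS.sub _ (g_memF hτ)) ⟨w.2, ?_⟩ ?_
      · rw [hag]; exact hC
      · exact hN fun hfa => hna ⟨hτ, hfa⟩

/-- VIRTUAL BLADES of type B -/
theorem bld_virtB (hS : Cex S pt R) {w : Sd I} (h : S.VirtB pt w) :
    ∃ y, S.Bld pt R w {w.1, (S.g (rot w)).1} (unrot w) {w, rot (S.g (rot w))} y := by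
  have hG : Geo S pt := hS.geo
  have hg := h.glued
  have hf := h.face
  obtain ⟨hbl, hact, htype⟩ := h
  have hwF : w.1 ∈ S.F := hf.1
  have haF : (S.g (rot w)).1 ∈ S.F := g_memF hg
  have hpy : S.Eqv (rot w) (rot (S.g (rot w))) := Eqv.of_glued hg
  have hbl2 := hbl.2.2.1
  rw [rot_rot] at hbl2
  refine ⟨rot w, bld_virt hS (a := S.g (rot w)) (τ := rot (S.g (rot w)))
    (β := unrot (S.g (rot w))) (σ := unrot w) (ρ := w) rfl hg hf rfl hbl.1 rfl hbl2
    (by rw [← rot_rot]; exact hbl.2.2.2) (rot_ne _).symm ?_ (Or.inr ⟨rfl, rfl⟩) ?_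
    (Or.inr (Eqv.refl _ _)) ?_ ?_⟩
  · intro b hb
    rcases eq_of_fst_eq hb with h1 | h1 | h1
    · exact Or.inl h1
    · exact Or.inr (Or.inl h1)
    · exact Or.inr (Or.inr h1)
  · intro he
    exact hG.pt_ne_rot hwF (hG.pt_eqv he).symm
  · left; exact hpy
  · intro C hC hN
    have hag : (S.g (S.g (rot w))).1 = w.1 := by rw [S.invol, rot_fst]
    rcases htype with hU | ⟨hP, hna⟩
    · refine Geo.see_U hG hU (hS.sub _ haF) (by rw [hag]; exact hS.sub _ hwF) ⟨w.2, ?_⟩
      rw [hag]; exact hC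
    · have hτ := hbl.1
      have h1 := Geo.see_pair (R := R) (C := C) hG hP (hS.sub _ haF) (hS.sub _ (g_memF hτ))
      rw [unrot_rot] at h1
      have h2 := h1 (by rw [hag]; exact hS.sub _ hwF) (hN fun hfa => hna ⟨hτ, hfa⟩)
        ⟨w.2, by rw [hag]; exact hC⟩
      exact h2

end

end Obj

end AG
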